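import Mathlib
import Pool.Agent.R311.DEH.A1

/-! Sums of an additive convolution over an arbitrary finite set: Cauchy's inequality, the autocorrelation of
one of the two sequences, and the number of coincidences between the differences of the set. -/

set_option autoImplicit false

namespace Pool.Agent.V7H49.DQ
open Finset
open Pool.Agent.H807R2.Dav

/-- the autocorrelation of a sequence on `[1, X]`, with the shift `j - (X + 1)` -/
noncomputable def cr (X : ℕ) (a : ℕ → ℝ) (j : ℕ) : ℝ :=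
  ∑ p ∈ (Icc 1 X ×ˢ Icc 1 X).filter (fun p => p.1 + p.2 = j), a p.1 * a (X + 1 - p.2)

lemma cr_sq (X : ℕ) (a : ℕ → ℝ) (δ : ℝ)
    (h : ∀ α : ℝ, ‖∑ m ∈ Icc 1 X, (a m : ℂ) * ee ((m : ℝ) * α)‖ ≤ δ) :
    ∑ j ∈ Icc 1 (2 * X), cr X a j ^ 2 ≤ δ ^ 2 * ∑ m ∈ Icc 1 X, a m ^ 2 := by
  have h1 := Pool.Agent.R311.DEH.cv_mean_sq X (fun m => (a m : ℂ)) (fun n => (a (X + 1 - n) : ℂ)) δ h
  have e1 : ∀ j, Pool.Agent.R311.DEH.cv X (fun m => (a m : ℂ)) (fun n => (a (X + 1 - n) : ℂ)) j =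
      ((cr X a j : ℝ) : ℂ) := by
    intro j
    unfold Pool.Agent.R311.DEH.cv cr
    push_cast
    rfl
  have e2 : ∑ n ∈ Icc 1 X, ‖(a (X + 1 - n) : ℂ)‖ ^ 2 = ∑ m ∈ Icc 1 X, a m ^ 2 := by
    apply sum_nbij' (fun n => X + 1 - n) (fun m => X + 1 - m)
    · intro n hn; rw [mem_Icc] at hn ⊢; omega
    · intro n hn; rw [mem_Icc] at hn ⊢; omega
    · intro n hn; rw [mem_Icc] at hn; omega
    · intro n hn; rw [mem_Icc] at hn; omega
    · intro n _
      rw [Complex.norm_real, Real.norm_eq_abs, sq_abs]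
  rw [e2] at h1
  refine le_trans (le_of_eq ?_) h1
  apply sum_congr rfl
  intro j _
  rw [e1, Complex.norm_real, Real.norm_eq_abs, sq_abs]

/-- the sequence cut to `[1, X]` -/
noncomputable def rs (X : ℕ) (a : ℕ → ℝ) (m : ℕ) : ℝ := if m ∈ Icc 1 X then a m else 0

lemma corr (X : ℕ) (a : ℕ → ℝ) {N N' : ℕ} (hN : N ∈ Icc 1 X) (hN' : N' ∈ Icc 1 X) :
    ∑ j ∈ Icc 1 (2 * X), rs X a (N + X - j) * rs X a (N' + X - j) = cr X a (X + 1 + N - N') := by
  rw [mem_Icc] at hN hN'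
  have e1 : ∀ j ∈ Icc 1 (2 * X), rs X a (N + X - j) * rs X a (N' + X - j) =
      if (N + X - j ∈ Icc 1 X ∧ N' + X - j ∈ Icc 1 X) then a (N + X - j) * a (N' + X - j) else 0 := by
    intro j _
    unfold rs
    by_cases h1 : N + X - j ∈ Icc 1 X
    · by_cases h2 : N' + X - j ∈ Icc 1 X
      · rw [if_pos h1, if_pos h2, if_pos ⟨h1, h2⟩]
      · rw [if_neg h2, mul_zero, if_neg (fun h => h2 h.2)]
    · rw [if_neg h1, zero_mul, if_neg (fun h => h1 h.1)]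
  rw [sum_congr rfl e1, ← sum_filter]
  unfold cr
  apply sum_nbij' (fun j => (N + X - j, X + 1 - (N' + X - j))) (fun p => N + X - p.1)
  · intro j hj
    simp only [mem_filter, mem_Icc, mem_product] at hj ⊢
    omega
  · rintro ⟨p1, p2⟩ hp
    simp only [mem_filter, mem_Icc, mem_product] at hp ⊢
    omega
  · intro j hj
    simp only [mem_filter, mem_Icc] at hj ⊢
    omega
  · rintro ⟨p1, p2⟩ hp
    simp only [mem_filter, mem_Icc, mem_product] at hp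
    ext <;> simp only <;> omega
  · intro j hj
    simp only [mem_filter, mem_Icc] at hj
    have : X + 1 - (X + 1 - (N' + X - j)) = N' + X - j := by omega
    simp only [this]

lemma conv_eq (X : ℕ) (a b : ℕ → ℝ) {N : ℕ} (hN : N ∈ Icc 1 X) :
    ∑ n ∈ Ico 1 N, b n * a (N - n) = ∑ n ∈ Icc 1 X, b n * rs X a (N + X - (n + X)) := by
  rw [mem_Icc] at hN
  have hsub : Ico 1 N ⊆ Icc 1 X := by
    intro n hn
    rw [mem_Ico] at hn
    rw [mem_Icc]
    omega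
  rw [← sum_subset hsub]
  · apply sum_congr rfl
    intro n hn
    rw [mem_Ico] at hn
    unfold rs
    have h1 : N + X - (n + X) = N - n := by omega
    rw [h1, if_pos (by rw [mem_Icc]; omega)]
  · intro n hn hn'
    rw [mem_Icc] at hn
    rw [mem_Ico] at hn'
    unfold rs
    have h1 : N + X - (n + X) = 0 := by omega
    rw [h1, if_neg (by rw [mem_Icc]; omega), mul_zero]

/-- Cauchy's inequality -/
theorem cauchy {ι : Type*} (X : ℕ) (a b : ℕ → ℝ) (s : ι → ℝ) (I : Finset ι) (φ : ι → ℕ)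
    (hφ : ∀ i ∈ I, φ i ∈ Icc 1 X) (hs : ∀ i, |s i| ≤ 1) :
    (∑ i ∈ I, s i * ∑ n ∈ Ico 1 (φ i), b n * a (φ i - n)) ^ 2 ≤
      (∑ n ∈ Icc 1 X, b n ^ 2) * ∑ i ∈ I, ∑ i' ∈ I, |cr X a (X + 1 + φ i - φ i')| := by
  set V : ℕ → ℝ := fun j => ∑ i ∈ I, s i * rs X a (φ i + X - j) with hV
  have e1 : ∑ i ∈ I, s i * ∑ n ∈ Ico 1 (φ i), b n * a (φ i - n) = ∑ n ∈ Icc 1 X, b n * V (n + X) := by
    have h1 : ∀ i ∈ I, s i * ∑ n ∈ Ico 1 (φ i), b n * a (φ i - n) =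
        ∑ n ∈ Icc 1 X, b n * (s i * rs X a (φ i + X - (n + X))) := by
      intro i hi
      rw [conv_eq X a b (hφ i hi), mul_sum]
      exact sum_congr rfl fun n _ => by ring
    rw [sum_congr rfl h1, sum_comm]
    apply sum_congr rfl
    intro n _
    rw [hV]
    simp only
    rw [mul_sum]
  rw [e1]
  refine (sum_mul_sq_le_sq_mul_sq _ _ _).trans ?_
  apply mul_le_mul_of_nonneg_left _ (sum_nonneg fun _ _ => sq_nonneg _)
  have h2 : ∑ n ∈ Icc 1 X, V (n + X) ^ 2 ≤ ∑ j ∈ Icc 1 (2 * X), V j ^ 2 := by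
    have h3 : ∑ n ∈ Icc 1 X, V (n + X) ^ 2 = ∑ j ∈ (Icc 1 X).image (fun n => n + X), V j ^ 2 := by
      rw [sum_image]
      intro x _ y _ hxy
      simp only at hxy
      omega
    rw [h3]
    apply sum_le_sum_of_subset_of_nonneg
    · intro j hj
      rw [mem_image] at hj
      obtain ⟨n, hn, rfl⟩ := hj
      rw [mem_Icc] at hn ⊢
      omega
    · intro _ _ _; exact sq_nonneg _
  refine h2.trans ?_
  have h4 : ∑ j ∈ Icc 1 (2 * X), V j ^ 2 =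
      ∑ i ∈ I, ∑ i' ∈ I, s i * s i' * cr X a (X + 1 + φ i - φ i') := by
    have h5 : ∀ j ∈ Icc 1 (2 * X), V j ^ 2 = ∑ i ∈ I, ∑ i' ∈ I,
        s i * s i' * (rs X a (φ i + X - j) * rs X a (φ i' + X - j)) := by
      intro j _
      rw [hV]
      simp only
      rw [sq, sum_mul_sum]
      apply sum_congr rfl
      intro i _
      apply sum_congr rfl
      intro i' _
      ring
    rw [sum_congr rfl h5, sum_comm]
    apply sum_congr rfl
    intro i hi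
    rw [sum_comm]
    apply sum_congr rfl
    intro i' hi'
    rw [← mul_sum, corr X a (hφ i hi) (hφ i' hi')]
  rw [h4]
  apply sum_le_sum
  intro i _
  apply sum_le_sum
  intro i' _
  refine (le_abs_self _).trans ?_
  rw [abs_mul, abs_mul]
  have h6 := hs i
  have h7 := hs i'
  have h8 : |s i| * |s i'| ≤ 1 := by
    calc |s i| * |s i'| ≤ 1 * 1 := mul_le_mul h6 h7 (abs_nonneg _) (by norm_num)
      _ = 1 := by norm_num
  calc |s i| * |s i'| * |cr X a (X + 1 + φ i - φ i')| ≤ 1 * |cr X a (X + 1 + φ i - φ i')| :=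
        mul_le_mul_of_nonneg_right h8 (abs_nonneg _)
    _ = _ := one_mul _

lemma cr_diag (X : ℕ) (a : ℕ → ℝ) : cr X a (X + 1) = ∑ m ∈ Icc 1 X, a m ^ 2 := by
  unfold cr
  apply sum_nbij' (fun p => p.1) (fun m => (m, X + 1 - m))
  · rintro ⟨p1, p2⟩ hp
    simp only [mem_filter, mem_Icc, mem_product] at hp ⊢
    omega
  · intro m hm
    simp only [mem_filter, mem_Icc, mem_product] at hm ⊢
    omega
  · rintro ⟨p1, p2⟩ hp
    simp only [mem_filter, mem_Icc, mem_product] at hp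
    ext <;> simp only <;> omega
  · intro m hm
    rfl
  · rintro ⟨p1, p2⟩ hp
    simp only [mem_filter, mem_Icc, mem_product] at hp
    have : X + 1 - p2 = p1 := by omega
    simp only [this]
    ring

lemma cr_zero (X q : ℕ) (a : ℕ → ℝ) (ha : ∀ m, ¬ q ∣ m → a m = 0) {N N' : ℕ} (hN' : N' ∈ Icc 1 X)
    (h : ¬ N ≡ N' [MOD q]) : cr X a (X + 1 + N - N') = 0 := by
  unfold cr
  apply sum_eq_zero
  rintro ⟨p1, p2⟩ hp
  simp only [mem_filter, mem_Icc, mem_product] at hp ⊢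
  rw [mem_Icc] at hN'
  by_cases h1 : q ∣ p1
  · by_cases h2 : q ∣ X + 1 - p2
    · exfalso
      apply h
      have h3 : N + (X + 1 - p2) = N' + p1 := by omega
      obtain ⟨u, hu⟩ := h1
      obtain ⟨v, hv⟩ := h2
      rw [hu, hv] at h3
      unfold Nat.ModEq
      have h4 : (N + q * v) % q = (N' + q * u) % q := by rw [h3]
      rwa [Nat.add_mul_mod_self_left, Nat.add_mul_mod_self_left] at h4
    · rw [ha _ h2, mul_zero]
  · rw [ha _ h1, zero_mul]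

/-- the number of the quadruples `(i₁, i₂, i₃, i₄)` of indices with `φ(i₁) - φ(i₂) = φ(i₃) - φ(i₄)`, not zero and
divisible by `q` -/
def energy {ι : Type*} (I : Finset ι) (φ : ι → ℕ) (q : ℕ) : ℕ :=
  (((I ×ˢ I) ×ˢ (I ×ˢ I)).filter (fun p => φ p.1.1 ≠ φ p.1.2 ∧ φ p.1.1 ≡ φ p.1.2 [MOD q] ∧
    φ p.1.1 + φ p.2.2 = φ p.1.2 + φ p.2.1)).card

/-- the number of the pairs of indices with `φ(i₁) = φ(i₂)` -/
def coin {ι : Type*} (I : Finset ι) (φ : ι → ℕ) : ℕ := ((I ×ˢ I).filter (fun p => φ p.1 = φ p.2)).card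

/-- the pairs of indices with distinct congruent values -/
def prs {ι : Type*} (I : Finset ι) (φ : ι → ℕ) (q : ℕ) : Finset (ι × ι) :=
  (I ×ˢ I).filter (fun p => φ p.1 ≠ φ p.2 ∧ φ p.1 ≡ φ p.2 [MOD q])

lemma fiber_sq {ι κ : Type*} [DecidableEq κ] (P : Finset ι) (J : Finset κ) (ψ : ι → κ) (hψ : ∀ p ∈ P, ψ p ∈ J) :
    ∑ j ∈ J, (((P.filter (fun p => ψ p = j)).card : ℝ)) ^ 2 =
      (((P ×ˢ P).filter (fun pp => ψ pp.1 = ψ pp.2)).card : ℝ) := by
  rw [card_eq_sum_card_fiberwise (s := (P ×ˢ P).filter (fun pp => ψ pp.1 = ψ pp.2)) (t := J)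
    (f := fun pp => ψ pp.1)]
  · push_cast
    apply sum_congr rfl
    intro j _
    rw [sq]
    norm_cast
    rw [← card_product]
    congr 1
    ext ⟨p, p'⟩
    simp only [mem_product, mem_filter]
    constructor
    · rintro ⟨⟨h1, h2⟩, h3, h4⟩
      exact ⟨⟨⟨h1, h3⟩, by rw [h2, h4]⟩, h2⟩
    · rintro ⟨⟨⟨h1, h2⟩, h3⟩, h4⟩
      exact ⟨⟨h1, h4⟩, h2, by rw [← h3, h4]⟩
  · intro pp hpp
    simp only [coe_filter, mem_product, Set.mem_ofPred_eq] at hpp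
    exact hψ _ hpp.1.1

theorem off_sum {ι : Type*} (X q : ℕ) (a : ℕ → ℝ) (I : Finset ι) (φ : ι → ℕ) (hI : ∀ i ∈ I, φ i ∈ Icc 1 X) :
    (∑ p ∈ prs I φ q, |cr X a (X + 1 + φ p.1 - φ p.2)|) ^ 2 ≤
      energy I φ q * ∑ j ∈ Icc 1 (2 * X), cr X a j ^ 2 := by
  set ψ : ι × ι → ℕ := fun p => X + 1 + φ p.1 - φ p.2 with hψ
  have hmaps : ∀ p ∈ prs I φ q, ψ p ∈ Icc 1 (2 * X) := by
    rintro ⟨i, i'⟩ hp
    simp only [prs, mem_filter, mem_product] at hp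
    have h1 := mem_Icc.1 (hI _ hp.1.1)
    have h2 := mem_Icc.1 (hI _ hp.1.2)
    rw [hψ, mem_Icc]
    simp only
    have h3 := hp.2.1
    omega
  have e1 : ∑ p ∈ prs I φ q, |cr X a (X + 1 + φ p.1 - φ p.2)| =
      ∑ j ∈ Icc 1 (2 * X), ((prs I φ q).filter (fun p => ψ p = j)).card * |cr X a j| := by
    rw [← sum_fiberwise_of_maps_to (s := prs I φ q) (t := Icc 1 (2 * X)) (g := ψ) hmaps]
    apply sum_congr rfl
    intro j _
    rw [sum_congr rfl (g := fun _ => |cr X a j|)]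
    · rw [sum_const, nsmul_eq_mul]
    · intro p hp
      rw [mem_filter] at hp
      rw [← hp.2]
  rw [e1]
  refine (sum_mul_sq_le_sq_mul_sq _ _ _).trans ?_
  have e2 : ∑ j ∈ Icc 1 (2 * X), |cr X a j| ^ 2 = ∑ j ∈ Icc 1 (2 * X), cr X a j ^ 2 :=
    sum_congr rfl fun _ _ => sq_abs _
  rw [e2]
  apply mul_le_mul_of_nonneg_right _ (sum_nonneg fun _ _ => sq_nonneg _)
  rw [fiber_sq _ _ _ hmaps]
  unfold energy
  have h4 : ((prs I φ q ×ˢ prs I φ q).filter (fun pp => ψ pp.1 = ψ pp.2)) ⊆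
      ((I ×ˢ I) ×ˢ (I ×ˢ I)).filter (fun p => φ p.1.1 ≠ φ p.1.2 ∧ φ p.1.1 ≡ φ p.1.2 [MOD q] ∧
        φ p.1.1 + φ p.2.2 = φ p.1.2 + φ p.2.1) := by
    rintro ⟨⟨N1, N2⟩, ⟨N3, N4⟩⟩ hp
    simp only [prs, mem_filter, mem_product, hψ] at hp ⊢
    obtain ⟨⟨⟨⟨h1, h2⟩, h3, h4⟩, ⟨h5, h6⟩, h7, h8⟩, h9⟩ := hp
    have k2 := mem_Icc.1 (hI _ h2)
    have k4 := mem_Icc.1 (hI _ h6)
    exact ⟨⟨⟨h1, h2⟩, h5, h6⟩, h3, h4, by omega⟩
  exact_mod_cast card_le_card h4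

/-- the bound for one modulus -/
theorem one_q {ι : Type*} (X q : ℕ) (a b : ℕ → ℝ) (δ : ℝ) (ha : ∀ m, ¬ q ∣ m → a m = 0) (I : Finset ι)
    (φ : ι → ℕ) (hI : ∀ i ∈ I, φ i ∈ Icc 1 X)
    (h : ∀ α : ℝ, ‖∑ m ∈ Icc 1 X, (a m : ℂ) * ee ((m : ℝ) * α)‖ ≤ δ) :
    ∃ R : ℝ, 0 ≤ R ∧ R ^ 2 ≤ energy I φ q * (δ ^ 2 * ∑ m ∈ Icc 1 X, a m ^ 2) ∧
      (∑ i ∈ I, |∑ n ∈ Ico 1 (φ i), b n * a (φ i - n)|) ^ 2 ≤
        (∑ n ∈ Icc 1 X, b n ^ 2) * (coin I φ * ∑ m ∈ Icc 1 X, a m ^ 2 + R) := by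
  refine ⟨∑ p ∈ prs I φ q, |cr X a (X + 1 + φ p.1 - φ p.2)|, sum_nonneg fun _ _ => abs_nonneg _, ?_, ?_⟩
  · refine (off_sum X q a I φ hI).trans ?_
    exact mul_le_mul_of_nonneg_left (cr_sq X a δ h) (by positivity)
  · set s : ι → ℝ := fun i => if 0 ≤ ∑ n ∈ Ico 1 (φ i), b n * a (φ i - n) then 1 else -1 with hs
    have hs1 : ∀ i, |s i| ≤ 1 := by
      intro i
      rw [hs]
      simp only
      split_ifs <;> simp
    have e1 : ∑ i ∈ I, |∑ n ∈ Ico 1 (φ i), b n * a (φ i - n)| =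
        ∑ i ∈ I, s i * ∑ n ∈ Ico 1 (φ i), b n * a (φ i - n) := by
      apply sum_congr rfl
      intro i _
      rw [hs]
      simp only
      split_ifs with h1
      · rw [abs_of_nonneg h1, one_mul]
      · rw [abs_of_neg (not_le.1 h1)]; ring
    rw [e1]
    refine (cauchy X a b s I φ hI hs1).trans ?_
    apply mul_le_mul_of_nonneg_left _ (sum_nonneg fun _ _ => sq_nonneg _)
    rw [← sum_product' (s := I) (t := I) (f := fun i i' => |cr X a (X + 1 + φ i - φ i')|)]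
    have hsplit : ∑ p ∈ I ×ˢ I, |cr X a (X + 1 + φ p.1 - φ p.2)| =
        ∑ p ∈ (I ×ˢ I).filter (fun p => φ p.1 = φ p.2), |cr X a (X + 1 + φ p.1 - φ p.2)| +
        ∑ p ∈ (I ×ˢ I).filter (fun p => ¬ φ p.1 = φ p.2), |cr X a (X + 1 + φ p.1 - φ p.2)| :=
      (sum_filter_add_sum_filter_not _ _ _).symm
    rw [hsplit]
    apply add_le_add
    · have h2 : ∀ p ∈ (I ×ˢ I).filter (fun p => φ p.1 = φ p.2), |cr X a (X + 1 + φ p.1 - φ p.2)| =
          ∑ m ∈ Icc 1 X, a m ^ 2 := by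
        rintro ⟨i, i'⟩ hp
        simp only [mem_filter, mem_product] at hp
        obtain ⟨⟨_, _⟩, h3⟩ := hp
        have : X + 1 + φ i - φ i' = X + 1 := by omega
        simp only [this]
        rw [cr_diag, abs_of_nonneg (sum_nonneg fun _ _ => sq_nonneg _)]
      rw [sum_congr rfl h2, sum_const, nsmul_eq_mul]
      unfold coin
      exact le_of_eq (by congr!)
    · have h2 : ∑ p ∈ (I ×ˢ I).filter (fun p => ¬ φ p.1 = φ p.2), |cr X a (X + 1 + φ p.1 - φ p.2)| =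
          ∑ p ∈ prs I φ q, |cr X a (X + 1 + φ p.1 - φ p.2)| := by
        symm
        apply sum_subset
        · rintro ⟨i, i'⟩ hp
          simp only [prs, mem_filter, mem_product] at hp ⊢
          exact ⟨hp.1, hp.2.1⟩
        · rintro ⟨i, i'⟩ hp hp'
          simp only [prs, mem_filter, mem_product] at hp hp' ⊢
          have h3 : ¬ φ i ≡ φ i' [MOD q] := fun h4 => hp' ⟨hp.1, hp.2, h4⟩
          rw [cr_zero X q a ha (hI _ hp.1.2) h3, abs_zero]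
      rw [h2]

end Pool.Agent.V7H49.DQ
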