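import Mathlib
import Pool.Agent.V7H49.DQ1
import Pool.Agent.H398R2.BA1

/-! The number of the coincidences between the differences of the values of a quadratic polynomial. -/

set_option autoImplicit false

namespace Pool.Agent.V7H49.DQ
open Finset

/-- the values of the polynomial -/
def qv (a b : ℕ) (c : ℤ) (n : ℕ) : ℤ := a * (n : ℤ) ^ 2 + b * n + c

lemma qv_lt {a b : ℕ} {c : ℤ} (ha : 1 ≤ a) {n m : ℕ} (h : n < m) : qv a b c n < qv a b c m := by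
  unfold qv
  have h1 : (n : ℤ) + 1 ≤ m := by exact_mod_cast h
  have h2 : (1 : ℤ) ≤ a := by exact_mod_cast ha
  have h3 : (0 : ℤ) ≤ n := by positivity
  have h4 : (0 : ℤ) ≤ b := by positivity
  have h5 : (n : ℤ) ^ 2 < (m : ℤ) ^ 2 := by nlinarith
  have h6 : (b : ℤ) * n ≤ b * m := mul_le_mul_of_nonneg_left (by linarith) h4
  nlinarith

lemma qv_fac (a b : ℕ) (c : ℤ) (n m : ℕ) :
    qv a b c n - qv a b c m = ((n : ℤ) - m) * (a * ((n : ℤ) + m) + b) := by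
  unfold qv
  ring

lemma key_inj {a b : ℕ} {c : ℤ} (ha : 1 ≤ a) {n m n' m' : ℕ} (h1 : (n : ℤ) - m = n' - m')
    (h2 : qv a b c n - qv a b c m = qv a b c n' - qv a b c m') (h3 : (n : ℤ) - m ≠ 0) : n = n' ∧ m = m' := by
  rw [qv_fac, qv_fac, ← h1] at h2
  have h4 := mul_left_cancel₀ h3 h2
  have h5 : (a : ℤ) * ((n : ℤ) + m) = a * ((n' : ℤ) + m') := by linarith
  have h6 : (a : ℤ) ≠ 0 := by
    have : (1 : ℤ) ≤ a := by exact_mod_cast ha
    omega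
  have h7 := mul_left_cancel₀ h6 h5
  constructor <;> omega

/-- the quadruples of the arguments -/
def iq (a b : ℕ) (c : ℤ) (x q : ℕ) : Finset ((ℕ × ℕ) × (ℕ × ℕ)) :=
  ((Ioc x (2 * x) ×ˢ Ioc x (2 * x)) ×ˢ (Ioc x (2 * x) ×ˢ Ioc x (2 * x))).filter
    (fun p => qv a b c p.1.1 ≠ qv a b c p.1.2 ∧ (q : ℤ) ∣ qv a b c p.1.1 - qv a b c p.1.2 ∧
      qv a b c p.1.1 - qv a b c p.1.2 = qv a b c p.2.1 - qv a b c p.2.2)

/-- the natural number `f(n)` -/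
def qn (a b : ℕ) (c : ℤ) (n : ℕ) : ℕ := (qv a b c n).toNat

lemma energy_le_iq (a b : ℕ) (c : ℤ) (x q : ℕ) (hpos : ∀ n ∈ Ioc x (2 * x), 0 < qv a b c n) :
    energy (Ioc x (2 * x)) (qn a b c) q ≤ (iq a b c x q).card := by
  unfold energy
  apply card_le_card
  rintro ⟨⟨n1, n2⟩, ⟨n3, n4⟩⟩ hp
  simp only [mem_filter, mem_product, iq] at hp ⊢
  obtain ⟨⟨⟨h1, h2⟩, h3, h4⟩, h5, h6, h7⟩ := hp
  have p1 := hpos n1 h1
  have p2 := hpos n2 h2
  have p3 := hpos n3 h3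
  have p4 := hpos n4 h4
  have f1 : ((qn a b c n1 : ℕ) : ℤ) = qv a b c n1 := by unfold qn; omega
  have f2 : ((qn a b c n2 : ℕ) : ℤ) = qv a b c n2 := by unfold qn; omega
  have f3 : ((qn a b c n3 : ℕ) : ℤ) = qv a b c n3 := by unfold qn; omega
  have f4 : ((qn a b c n4 : ℕ) : ℤ) = qv a b c n4 := by unfold qn; omega
  refine ⟨⟨⟨h1, h2⟩, h3, h4⟩, ?_, ?_, ?_⟩
  · rw [← f1, ← f2]; exact_mod_cast h5
  · rw [← f1, ← f2]
    exact (Nat.modEq_iff_dvd.1 h6.symm)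
  · rw [← f1, ← f2, ← f3, ← f4]; omega

lemma sum_iq (a b : ℕ) (c : ℤ) (x X Q : ℕ) (ha : 1 ≤ a)
    (hpos : ∀ n ∈ Ioc x (2 * x), 0 < qv a b c n ∧ qv a b c n ≤ X) :
    ∑ q ∈ Icc 1 Q, (iq a b c x q).card ≤ ∑ h ∈ Icc 1 X, h.divisors.card ^ 3 * 2 := by
  have e1 : ∑ q ∈ Icc 1 Q, (iq a b c x q).card = ((Icc 1 Q).sigma (fun q => iq a b c x q)).card :=
    (card_sigma _ _).symm
  have e2 : ∑ h ∈ Icc 1 X, h.divisors.card ^ 3 * 2 = ((Icc 1 X).sigma (fun h =>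
      (h.divisors ×ˢ h.divisors) ×ˢ (h.divisors ×ˢ (univ : Finset Bool)))).card := by
    rw [card_sigma]
    apply sum_congr rfl
    intro h _
    rw [card_product, card_product, card_product, card_univ, Fintype.card_bool]
    ring
  rw [e1, e2]
  apply card_le_card_of_injOn (fun z : (_ : ℕ) × ((ℕ × ℕ) × (ℕ × ℕ)) =>
    (⟨(qv a b c z.2.1.1 - qv a b c z.2.1.2).natAbs,
      ((z.1, ((z.2.1.1 : ℤ) - z.2.1.2).natAbs), (((z.2.2.1 : ℤ) - z.2.2.2).natAbs, decide (z.2.1.2 < z.2.1.1)))⟩ :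
        (_ : ℕ) × ((ℕ × ℕ) × (ℕ × Bool))))
  · rintro ⟨q, ⟨⟨n1, n2⟩, ⟨n3, n4⟩⟩⟩ hz
    simp only [coe_sigma, Set.mem_sigma_iff, mem_coe, iq, mem_filter, mem_product] at hz
    obtain ⟨hq, ⟨⟨h1, h2⟩, h3, h4⟩, h5, h6, h7⟩ := hz
    simp only [coe_sigma, Set.mem_sigma_iff, mem_coe, mem_product, mem_univ, and_true]
    have p1 := hpos n1 h1
    have p2 := hpos n2 h2
    rw [mem_Icc] at hq
    have hne : (qv a b c n1 - qv a b c n2).natAbs ≠ 0 := by omega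
    refine ⟨by rw [mem_Icc]; omega, ⟨?_, ?_⟩, ?_⟩
    · rw [Nat.mem_divisors]
      exact ⟨Int.natCast_dvd.1 h6, hne⟩
    · rw [Nat.mem_divisors]
      refine ⟨?_, hne⟩
      rw [qv_fac]
      exact Int.natAbs_dvd_natAbs.2 (Dvd.intro _ rfl)
    · rw [Nat.mem_divisors]
      refine ⟨?_, hne⟩
      rw [h7, qv_fac]
      exact Int.natAbs_dvd_natAbs.2 (Dvd.intro _ rfl)
  · rintro ⟨q, ⟨⟨n1, n2⟩, ⟨n3, n4⟩⟩⟩ hz ⟨q', ⟨⟨m1, m2⟩, ⟨m3, m4⟩⟩⟩ hz' heq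
    simp only [coe_sigma, Set.mem_sigma_iff, mem_coe, iq, mem_filter, mem_product] at hz hz'
    obtain ⟨hq, -, h5, h6, h7⟩ := hz
    obtain ⟨hq', -, h5', h6', h7'⟩ := hz'
    simp only [Sigma.mk.injEq, heq_eq_eq, Prod.mk.injEq, decide_eq_decide] at heq
    obtain ⟨k1, ⟨k2, k3⟩, k4, k5⟩ := heq
    have mono : ∀ u v : ℕ, (u < v → qv a b c u < qv a b c v) := fun u v h => qv_lt ha h
    have g1 := mono n1 n2
    have g2 := mono n2 n1
    have g3 := mono n3 n4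
    have g4 := mono n4 n3
    have g5 := mono m1 m2
    have g6 := mono m2 m1
    have g7 := mono m3 m4
    have g8 := mono m4 m3
    have n12 : n1 ≠ n2 := by rintro rfl; exact h5 rfl
    have m12 : m1 ≠ m2 := by rintro rfl; exact h5' rfl
    have n34 : n3 ≠ n4 := by
      rintro rfl
      rw [sub_self] at h7
      exact h5 (by omega)
    have m34 : m3 ≠ m4 := by
      rintro rfl
      rw [sub_self] at h7'
      exact h5' (by omega)
    have d1 : (n1 : ℤ) - n2 = m1 - m2 := by omega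
    have d2 : qv a b c n1 - qv a b c n2 = qv a b c m1 - qv a b c m2 := by omega
    obtain ⟨r1, r2⟩ := key_inj ha d1 d2 (by omega)
    have d3 : (n3 : ℤ) - n4 = m3 - m4 := by omega
    have d4 : qv a b c n3 - qv a b c n4 = qv a b c m3 - qv a b c m4 := by omega
    obtain ⟨r3, r4⟩ := key_inj ha d3 d4 (by omega)
    subst k2 r1 r2 r3 r4
    rfl

theorem sum_energy (a b : ℕ) (c : ℤ) (x X Q : ℕ) (ha : 1 ≤ a)
    (hpos : ∀ n ∈ Ioc x (2 * x), 0 < qv a b c n ∧ qv a b c n ≤ X) :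
    ∑ q ∈ Icc 1 Q, (energy (Ioc x (2 * x)) (qn a b c) q : ℝ) ≤ 2 * (X * (1 + Real.log X) ^ 8) := by
  have h1 : ∑ q ∈ Icc 1 Q, energy (Ioc x (2 * x)) (qn a b c) q ≤ ∑ h ∈ Icc 1 X, h.divisors.card ^ 3 * 2 :=
    (sum_le_sum fun q _ => energy_le_iq a b c x q (fun n hn => (hpos n hn).1)).trans
      (sum_iq a b c x X Q ha hpos)
  have h2 : ∑ q ∈ Icc 1 Q, (energy (Ioc x (2 * x)) (qn a b c) q : ℝ) ≤ ∑ h ∈ Icc 1 X, (h.divisors.card : ℝ) ^ 3 * 2 := by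
    exact_mod_cast h1
  refine h2.trans ?_
  rw [← sum_mul, mul_comm]
  apply mul_le_mul_of_nonneg_left _ (by norm_num)
  have h3 := Pool.Agent.H398R2.BV.sum_card_pow_div 3 X
  norm_num at h3
  calc ∑ h ∈ Icc 1 X, (h.divisors.card : ℝ) ^ 3 ≤ ∑ h ∈ Icc 1 X, X * ((h.divisors.card : ℝ) ^ 3 / h) := by
        apply sum_le_sum
        intro h hh
        rw [mem_Icc] at hh
        have h0 : (0 : ℝ) < h := by exact_mod_cast hh.1
        have h4 : (h : ℝ) ≤ X := by exact_mod_cast hh.2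
        rw [← mul_div_assoc, le_div_iff₀ h0, mul_comm]
        exact mul_le_mul_of_nonneg_right h4 (by positivity)
    _ = X * ∑ h ∈ Icc 1 X, (h.divisors.card : ℝ) ^ 3 / h := by rw [mul_sum]
    _ ≤ X * (1 + Real.log X) ^ 8 := mul_le_mul_of_nonneg_left h3 (by positivity)

end Pool.Agent.V7H49.DQ
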