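import Mathlib
import Pool.Agent.V7H49.DQ1
import Pool.Agent.R311.DEH.A7

/-! The sum over the moduli, and the criterion for thin sets. -/

set_option autoImplicit false

namespace Pool.Agent.V7H49.DQ
open Finset
open Pool.Agent.H807R2.Dav
open Pool.Agent.R311.DEH

/-- the weight on the multiples of `q` -/
noncomputable def aq (g : ℕ → ℝ) (q m : ℕ) : ℝ := if q ∣ m then g m else 0

lemma Tq_real (g : ℕ → ℝ) (q N : ℕ) :
    Tq g q N = ∑ n ∈ Ico 1 N, ArithmeticFunction.vonMangoldt n * aq g q (N - n) := by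
  unfold Tq
  rw [sum_filter]
  apply sum_congr rfl
  intro n hn
  rw [mem_Ico] at hn
  have h1 : n ≡ N [MOD q] ↔ q ∣ N - n := Nat.modEq_iff_dvd' hn.2.le
  unfold aq
  by_cases h : q ∣ N - n
  · rw [if_pos (h1.2 h), if_pos h]
  · rw [if_neg (fun hh => h (h1.1 hh)), if_neg h, mul_zero]

lemma g_le {g : ℕ → ℝ} (hg : g = g1 ∨ g = g2) {X m : ℕ} (hm : m ∈ Icc 1 X) : g m ^ 2 ≤ (1 + Real.log X) ^ 2 := by
  rw [mem_Icc] at hm
  have hm0 : (0 : ℝ) < m := by exact_mod_cast hm.1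
  have h1 : 0 ≤ Real.log m := Real.log_nonneg (by exact_mod_cast hm.1)
  have h2 : Real.log m ≤ Real.log X := Real.log_le_log hm0 (by exact_mod_cast hm.2)
  have h3 : |((ArithmeticFunction.moebius m : ℤ) : ℝ)| ≤ 1 := by
    have := ArithmeticFunction.abs_moebius_le_one (n := m)
    exact_mod_cast this
  apply sq_le_sq'
  · rcases hg with rfl | rfl
    · unfold g1
      have := (abs_le.1 h3).1
      linarith
    · unfold g2
      have h4 : |((ArithmeticFunction.moebius m : ℤ) : ℝ) * Real.log m| ≤ 1 + Real.log X := by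
        rw [abs_mul, abs_of_nonneg h1]
        nlinarith [abs_nonneg ((ArithmeticFunction.moebius m : ℤ) : ℝ)]
      have := (abs_le.1 h4).1
      linarith
  · rcases hg with rfl | rfl
    · unfold g1
      have := (abs_le.1 h3).2
      linarith
    · unfold g2
      have h4 : |((ArithmeticFunction.moebius m : ℤ) : ℝ) * Real.log m| ≤ 1 + Real.log X := by
        rw [abs_mul, abs_of_nonneg h1]
        nlinarith [abs_nonneg ((ArithmeticFunction.moebius m : ℤ) : ℝ)]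
      have := (abs_le.1 h4).2
      linarith

lemma a_sq {g : ℕ → ℝ} (hg : g = g1 ∨ g = g2) (X q : ℕ) :
    ∑ m ∈ Icc 1 X, aq g q m ^ 2 ≤ X / q * (1 + Real.log X) ^ 2 := by
  have h1 : ∑ m ∈ Icc 1 X, aq g q m ^ 2 = ∑ m ∈ (Icc 1 X).filter (fun m => q ∣ m), g m ^ 2 := by
    rw [sum_filter]
    apply sum_congr rfl
    intro m _
    unfold aq
    split_ifs <;> simp
  rw [h1]
  have h2 : ∑ m ∈ (Icc 1 X).filter (fun m => q ∣ m), g m ^ 2 ≤
      ∑ _m ∈ (Icc 1 X).filter (fun m => q ∣ m), (1 + Real.log X) ^ 2 :=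
    sum_le_sum fun m hm => g_le hg (mem_filter.1 hm).1
  refine h2.trans ?_
  rw [sum_const, nsmul_eq_mul]
  apply mul_le_mul_of_nonneg_right _ (sq_nonneg _)
  have h3 : ((Icc 1 X).filter (fun m => q ∣ m)).card = X / q := by
    have h4 : Icc 1 X = Ioc 0 X := by ext x; simp only [mem_Icc, mem_Ioc]; omega
    rw [h4]
    exact Nat.Ioc_filter_dvd_card_eq_div X q
  rw [h3]
  exact Nat.cast_div_le

lemma lam_sq_real (X : ℕ) : ∑ n ∈ Icc 1 X, (ArithmeticFunction.vonMangoldt n) ^ 2 ≤ X * (1 + Real.log X) ^ 2 := by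
  refine le_trans (le_of_eq ?_) (lam_sq X)
  apply sum_congr rfl
  intro n _
  rw [Complex.norm_real, Real.norm_eq_abs, sq_abs]

lemma dl_triv (U X q K : ℕ) (hX : 1 ≤ X) (hK : 2 ≤ Real.log K) :
    dl U X q K ≤ 4 * (1 + Real.log X) ^ 2 * (X / q) := by
  have hL0 : 0 ≤ Real.log X := Real.log_nonneg (by exact_mod_cast hX)
  have h1 : 2 ^ U * (1 + Real.log X) / Real.log K ^ U ≤ 1 + Real.log X := by
    rw [div_le_iff₀ (by positivity)]
    have : (2 : ℝ) ^ U ≤ Real.log K ^ U := pow_le_pow_left₀ (by norm_num) hK _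
    nlinarith
  have h2 : tl q (ct K) X ≤ 1 + Real.log X := by
    unfold tl
    refine le_trans ?_ (harm_le X)
    apply sum_le_sum_of_subset_of_nonneg
    · intro d hd
      rw [mem_filter, mem_Ioc] at hd
      rw [mem_Icc]
      omega
    · intro _ _ _; positivity
  unfold dl
  have h3 : (0 : ℝ) ≤ (X : ℝ) / q := by positivity
  calc 2 * (1 + Real.log X) * ((X / q) * (2 ^ U * (1 + Real.log X) / Real.log K ^ U + tl q (ct K) X)) ≤
      2 * (1 + Real.log X) * ((X / q) * ((1 + Real.log X) + (1 + Real.log X))) := by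
        apply mul_le_mul_of_nonneg_left _ (by positivity)
        exact mul_le_mul_of_nonneg_left (add_le_add h1 h2) h3
    _ = _ := by ring

theorem sum_T (U : ℕ) : ∃ Y0 : ℕ, 4 ≤ Y0 ∧ ∀ X K T Q : ℕ, Y0 ≤ K → 2 ≤ Real.log K → K ≤ X → 1 ≤ T →
    T ^ 3 ≤ ct K → (∀ q : ℕ, 1 ≤ q → q ≤ Q → K ≤ X / q) → ∀ (ι : Type) (I : Finset ι) (φ : ι → ℕ),
    (∀ i ∈ I, φ i ∈ Icc 1 X) → ∀ g : ℕ → ℝ, (g = g1 ∨ g = g2) →
    (∑ q ∈ Icc 1 Q, ∑ i ∈ I, |Tq g q (φ i)|) ^ 2 ≤ (X : ℝ) ^ 2 * (1 + Real.log X) ^ 5 *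
      (Q * coin I φ + 2 * (Real.sqrt (∑ q ∈ Icc 1 Q, (energy I φ q : ℝ)) *
        Real.sqrt (8 * (1 + Real.log X) ^ 3 * X * (2 ^ U / Real.log K ^ U + 1 / T)))) := by
  obtain ⟨Y0, hY0, h⟩ := g_bound U
  refine ⟨Y0, hY0, fun X K T Q hK hK2 hKX hT hTK hQ ι I φ hI g hg => ?_⟩
  have hK4 : 4 ≤ K := hY0.trans hK
  have hX4 : 4 ≤ X := hK4.trans hKX
  have hXr : (4 : ℝ) ≤ X := by exact_mod_cast hX4
  have hlX : 0 < Real.log X := Real.log_pos (by linarith)
  set ℓ := 1 + Real.log X with hℓ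
  have hℓ1 : 1 ≤ ℓ := by linarith
  set Z := 2 ^ U / Real.log K ^ U + 1 / (T : ℝ) with hZ
  have hZ0 : 0 ≤ Z := by positivity
  have hQX : ∀ q ∈ Icc 1 Q, q ∈ Qs X K := by
    intro q hq
    rw [mem_Icc] at hq
    have h1 := hQ q hq.1 hq.2
    rw [Qs, mem_filter, mem_Icc]
    refine ⟨⟨hq.1, ?_⟩, h1⟩
    by_contra hcon
    push Not at hcon
    rw [Nat.div_eq_of_lt hcon] at h1
    omega
  have hδsum : ∑ q ∈ Icc 1 Q, dl U X q K ≤ 8 * ℓ ^ 3 * X * Z := by
    refine le_trans ?_ (sum_dl U X K T hX4 hK4 hT hTK)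
    exact sum_le_sum_of_subset_of_nonneg hQX (fun q _ _ => dl_nonneg U X q K (by omega) (by omega))
  have key : ∀ q ∈ Icc 1 Q, (q : ℝ) * (∑ i ∈ I, |Tq g q (φ i)|) ^ 2 ≤
      X * ℓ ^ 2 * (coin I φ * X * ℓ ^ 2 + 2 * ℓ ^ 2 * X *
        (Real.sqrt (energy I φ q) * Real.sqrt (dl U X q K))) := by
    intro q hq
    rw [mem_Icc] at hq
    have hq0 : (0 : ℝ) < q := by exact_mod_cast hq.1
    have hKq := hQ q hq.1 hq.2
    set δ := dl U X q K with hδ
    have hδ0 : 0 ≤ δ := dl_nonneg U X q K (by omega) (by omega)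
    have hδt : q * δ ≤ 4 * ℓ ^ 2 * X := by
      have h1 := dl_triv U X q K (by omega) hK2
      calc q * δ ≤ q * (4 * ℓ ^ 2 * (X / q)) := mul_le_mul_of_nonneg_left h1 hq0.le
        _ = _ := by field_simp
    have hsup : ∀ α : ℝ, ‖∑ m ∈ Icc 1 X, ((aq g q m : ℝ) : ℂ) * ee ((m : ℝ) * α)‖ ≤ δ := by
      intro α
      refine le_trans (le_of_eq ?_) (h X q K hq.1 hK hKq g hg α)
      congr 1
      apply sum_congr rfl
      intro m _
      unfold aq
      split_ifs <;> simp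
    have ha : ∀ m, ¬ q ∣ m → aq g q m = 0 := by
      intro m hm
      unfold aq
      rw [if_neg hm]
    obtain ⟨R, hR0, hR2, hmain⟩ := one_q X q (aq g q) (fun n => ArithmeticFunction.vonMangoldt n) δ ha I φ hI hsup
    have e1 : ∑ i ∈ I, |Tq g q (φ i)| = ∑ i ∈ I, |∑ n ∈ Ico 1 (φ i), ArithmeticFunction.vonMangoldt n * aq g q (φ i - n)| :=
      sum_congr rfl fun N _ => by rw [Tq_real]
    rw [e1]
    set A2 := ∑ m ∈ Icc 1 X, aq g q m ^ 2 with hA2
    have hA20 : 0 ≤ A2 := sum_nonneg fun _ _ => sq_nonneg _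
    have hA2le : q * A2 ≤ X * ℓ ^ 2 := by
      calc q * A2 ≤ q * (X / q * ℓ ^ 2) := mul_le_mul_of_nonneg_left (a_sq hg X q) hq0.le
        _ = _ := by field_simp
    have hE0 : (0 : ℝ) ≤ energy I φ q := by positivity
    -- q R ≤ 2 ℓ^2 X sqrt(E δ)
    have hqR : q * R ≤ 2 * ℓ ^ 2 * X * (Real.sqrt (energy I φ q) * Real.sqrt δ) := by
      apply le_of_sq_le_sq _ (by positivity)
      have e2 : (2 * ℓ ^ 2 * X * (Real.sqrt (energy I φ q) * Real.sqrt δ)) ^ 2 =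
          energy I φ q * δ * ((4 * ℓ ^ 2 * X) * (X * ℓ ^ 2)) := by
        rw [mul_pow, mul_pow (Real.sqrt _), Real.sq_sqrt hE0, Real.sq_sqrt hδ0]
        ring
      rw [e2]
      calc (q * R) ^ 2 = q ^ 2 * R ^ 2 := by ring
        _ ≤ q ^ 2 * (energy I φ q * (δ ^ 2 * A2)) := mul_le_mul_of_nonneg_left hR2 (by positivity)
        _ = energy I φ q * δ * ((q * δ) * (q * A2)) := by ring
        _ ≤ energy I φ q * δ * ((4 * ℓ ^ 2 * X) * (X * ℓ ^ 2)) := by
          apply mul_le_mul_of_nonneg_left _ (by positivity)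
          exact mul_le_mul hδt hA2le (by positivity) (by positivity)
    have hb := lam_sq_real X
    have h5 : (q : ℝ) * ((∑ n ∈ Icc 1 X, (ArithmeticFunction.vonMangoldt n) ^ 2) * (coin I φ * A2 + R)) ≤
        (X * ℓ ^ 2) * (coin I φ * (X * ℓ ^ 2) + q * R) := by
      calc _ = (∑ n ∈ Icc 1 X, (ArithmeticFunction.vonMangoldt n) ^ 2) * (coin I φ * (q * A2) + q * R) := by ring
        _ ≤ (X * ℓ ^ 2) * (coin I φ * (X * ℓ ^ 2) + q * R) := by
          apply mul_le_mul hb _ (by positivity) (by positivity)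
          apply add_le_add _ le_rfl
          exact mul_le_mul_of_nonneg_left hA2le (by positivity)
    refine (mul_le_mul_of_nonneg_left hmain hq0.le).trans (h5.trans ?_)
    apply mul_le_mul_of_nonneg_left _ (by positivity)
    apply add_le_add (le_of_eq (by ring)) hqR
  have hharm : ∑ q ∈ Icc 1 Q, 1 / (q : ℝ) ≤ ℓ := by
    refine le_trans ?_ (harm_le X)
    apply sum_le_sum_of_subset_of_nonneg
    · intro q hq
      have := hQX q hq
      rw [Qs, mem_filter] at this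
      exact this.1
    · intro _ _ _; positivity
  have h1 : (∑ q ∈ Icc 1 Q, ∑ i ∈ I, |Tq g q (φ i)|) ^ 2 ≤
      (∑ q ∈ Icc 1 Q, 1 / (q : ℝ)) * ∑ q ∈ Icc 1 Q, (q : ℝ) * (∑ i ∈ I, |Tq g q (φ i)|) ^ 2 := by
    apply sum_sq_le_sum_mul_sum_of_sq_le_mul
    · intro q _; positivity
    · intro q _; positivity
    · intro q hq
      rw [mem_Icc] at hq
      have hq0 : (0 : ℝ) < q := by exact_mod_cast hq.1
      apply le_of_eq
      field_simp
  refine h1.trans ?_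
  have h2 : ∑ q ∈ Icc 1 Q, (q : ℝ) * (∑ i ∈ I, |Tq g q (φ i)|) ^ 2 ≤
      X * ℓ ^ 2 * (Q * (coin I φ * X * ℓ ^ 2) + 2 * ℓ ^ 2 * X *
        (Real.sqrt (∑ q ∈ Icc 1 Q, (energy I φ q : ℝ)) * Real.sqrt (∑ q ∈ Icc 1 Q, dl U X q K))) := by
    refine (sum_le_sum key).trans ?_
    rw [← mul_sum, sum_add_distrib, sum_const, ← mul_sum, Nat.card_Icc, nsmul_eq_mul, Nat.add_sub_cancel]
    apply mul_le_mul_of_nonneg_left _ (by positivity)
    apply add_le_add le_rfl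
    apply mul_le_mul_of_nonneg_left _ (by positivity)
    exact Real.sum_sqrt_mul_sqrt_le _ (fun q => by positivity)
      (fun q => dl_nonneg U X q K (by omega) (by omega))
  have h3 : Real.sqrt (∑ q ∈ Icc 1 Q, dl U X q K) ≤ Real.sqrt (8 * ℓ ^ 3 * X * Z) := Real.sqrt_le_sqrt hδsum
  calc _ ≤ ℓ * (X * ℓ ^ 2 * (Q * (coin I φ * X * ℓ ^ 2) + 2 * ℓ ^ 2 * X *
        (Real.sqrt (∑ q ∈ Icc 1 Q, (energy I φ q : ℝ)) * Real.sqrt (8 * ℓ ^ 3 * X * Z)))) := by
        apply mul_le_mul hharm _ (sum_nonneg fun _ _ => by positivity) (by positivity)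
        refine h2.trans ?_
        gcongr
    _ = _ := by ring

end Pool.Agent.V7H49.DQ
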