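import Mathlib
import Pool.Agent.V7H49.DQ2

/-! The criterion for thin sets: the choice of the parameters. -/

set_option autoImplicit false

namespace Pool.Agent.V7H49.DQ
open Finset Filter Topology
open Pool.Agent.R311.DEH

lemma D_nat (g : ℕ → ℝ) (N Q : ℕ) : D g N (Q : ℝ) ≤
    ∑ q ∈ Icc 1 Q, (|Tq g q N| + 1 / (Nat.totient q : ℝ) * |Tq g 1 N|) := by
  unfold D
  rw [Nat.floor_natCast]
  refine (sum_le_sum_of_subset_of_nonneg (filter_subset _ _) (fun _ _ _ => abs_nonneg _)).trans ?_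
  apply sum_le_sum
  intro q _
  refine (abs_sub _ _).trans ?_
  rw [abs_mul, abs_of_nonneg (show 0 ≤ 1 / (Nat.totient q : ℝ) by positivity)]

lemma sum_phi (X : ℕ) (hX : 1 ≤ X) : ∑ q ∈ Icc 1 X, 1 / (Nat.totient q : ℝ) ≤ (1 + Real.log X) ^ 4 := by
  have hL0 : 0 ≤ Real.log X := Real.log_nonneg (by exact_mod_cast hX)
  have e2 : ∀ q ∈ Icc 1 X, 1 / (Nat.totient q : ℝ) ≤ (q.divisors.card : ℝ) ^ 1 / q := by
    intro q hq
    rw [mem_Icc] at hq
    refine (Pool.Agent.H398R2.BV.one_div_totient_le q hq.1).trans ?_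
    have hq0 : (0 : ℝ) < q := by exact_mod_cast hq.1
    apply div_le_div_of_nonneg_right _ hq0.le
    rw [pow_one]
    exact_mod_cast Pool.Agent.H398R2.BV.two_pow_omega_le q (by omega)
  refine (sum_le_sum e2).trans ((Pool.Agent.H398R2.BV.sum_card_pow_div 1 X).trans ?_)
  exact pow_le_pow_right₀ (by linarith) (by norm_num)

/-- the mean of the discrepancy over the set -/
lemma sum_D (g : ℕ → ℝ) (X Q : ℕ) (hX : 1 ≤ X) (hQ1 : 1 ≤ Q) (hQX : Q ≤ X) {ι : Type} (I : Finset ι)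
    (φ : ι → ℕ) : ∑ i ∈ I, D g (φ i) (Q : ℝ) ≤ 2 * (1 + Real.log X) ^ 4 * ∑ q ∈ Icc 1 Q, ∑ i ∈ I, |Tq g q (φ i)| := by
  have hL0 : 0 ≤ Real.log X := Real.log_nonneg (by exact_mod_cast hX)
  set W := ∑ q ∈ Icc 1 Q, ∑ i ∈ I, |Tq g q (φ i)| with hW
  have hW0 : 0 ≤ W := sum_nonneg fun _ _ => sum_nonneg fun _ _ => abs_nonneg _
  have h1 : ∑ i ∈ I, D g (φ i) (Q : ℝ) ≤ W + (∑ q ∈ Icc 1 Q, 1 / (Nat.totient q : ℝ)) * ∑ i ∈ I, |Tq g 1 (φ i)| := by
    refine (sum_le_sum fun i _ => D_nat g (φ i) Q).trans (le_of_eq ?_)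
    rw [sum_comm, hW, sum_mul, ← sum_add_distrib]
    apply sum_congr rfl
    intro q _
    rw [sum_add_distrib, mul_sum]
  have h2 : ∑ i ∈ I, |Tq g 1 (φ i)| ≤ W :=
    single_le_sum (f := fun q => ∑ i ∈ I, |Tq g q (φ i)|) (fun q _ => sum_nonneg fun _ _ => abs_nonneg _)
      (mem_Icc.2 ⟨le_rfl, hQ1⟩)
  have h3 : ∑ q ∈ Icc 1 Q, 1 / (Nat.totient q : ℝ) ≤ (1 + Real.log X) ^ 4 :=
    (sum_le_sum_of_subset_of_nonneg (Icc_subset_Icc le_rfl hQX) (fun _ _ _ => by positivity)).trans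
      (sum_phi X hX)
  have h4 : (∑ q ∈ Icc 1 Q, 1 / (Nat.totient q : ℝ)) * ∑ i ∈ I, |Tq g 1 (φ i)| ≤ (1 + Real.log X) ^ 4 * W :=
    mul_le_mul h3 h2 (sum_nonneg fun _ _ => abs_nonneg _) (by positivity)
  have h5 : W ≤ (1 + Real.log X) ^ 4 * W := by
    have : 1 ≤ (1 + Real.log X) ^ 4 := one_le_pow₀ (by linarith)
    nlinarith
  linarith

/-- **The criterion.** -/
theorem criterion (c : ℝ) (hc : 0 < c) (hc1 : c ≤ 1) (A B C : ℕ) : ∃ C' X0 : ℕ, ∀ X : ℕ, X0 ≤ X →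
    ∀ Q : ℕ, (Q : ℝ) ≤ X * Real.exp (-(Real.log X) ^ c) → ∀ (ι : Type) (I : Finset ι) (φ : ι → ℕ),
    (∀ i ∈ I, φ i ∈ Icc 1 X) → (Q : ℝ) * Real.log X ^ C' * coin I φ ≤ (I.card : ℝ) ^ 2 →
    (∑ q ∈ Icc 1 Q, (energy I φ q : ℝ)) ≤ Real.log X ^ C * (I.card : ℝ) ^ 4 / X →
    ∀ g : ℕ → ℝ, (g = g1 ∨ g = g2) →
    ((I.filter (fun i => (X : ℝ) / Real.log X ^ A < D g (φ i) Q)).card : ℝ) ≤ I.card / Real.log X ^ B := by
  set G := A + B + 6 with hG
  set F := 2 * G + 5 with hF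
  set E := C + 3 + 2 * F with hE
  obtain ⟨U, X1, hU⟩ := U_ex c hc E
  obtain ⟨Y0, hY0, hsum⟩ := sum_T U
  obtain ⟨X2, hK1⟩ := K_large c hc (max Y0 8)
  obtain ⟨X3, hK2⟩ := K_le c hc hc1
  obtain ⟨X4, hT⟩ := T_ex c hc E
  obtain ⟨X6, hlog⟩ := eventually_atTop.1 (tlog.eventually_ge_atTop (2 ^ (F + 3)))
  refine ⟨F + 1, X1 + X2 + X3 + X4 + X6 + 1, fun X hX Q hQ ι I φ hI hcard hen g hg => ?_⟩
  have a1 := hU X (by omega)
  have a2 := hK1 X (by omega)
  have a3 := hK2 X (by omega)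
  obtain ⟨T, hT1, hTct, hTge⟩ := hT X (by omega)
  have a6 := hlog X (by omega)
  have hX1 : 1 ≤ X := by omega
  have hXp : (0 : ℝ) < X := by exact_mod_cast hX1
  set L := Real.log X with hL
  set ℓ := 1 + L with hℓ
  have hL8 : 8 ≤ L := by
    have : (8 : ℝ) ≤ 2 ^ (F + 3) := by
      calc (8 : ℝ) = 2 ^ 3 := by norm_num
        _ ≤ 2 ^ (F + 3) := pow_le_pow_right₀ (by norm_num) (by omega)
    linarith
  have hℓ0 : 0 < ℓ := by linarith
  have hℓ6 : 6 ≤ ℓ := by linarith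
  have hℓ1 : 1 ≤ ℓ := by linarith
  have hS0 : (0 : ℝ) ≤ I.card := by positivity
  -- the empty cases
  rcases Nat.eq_zero_or_pos Q with hQ0 | hQ1
  · have h1 : I.filter (fun i => (X : ℝ) / L ^ A < D g (φ i) Q) = ∅ := by
      apply filter_eq_empty_iff.2
      intro N _
      rw [hQ0]
      unfold D
      simp only [Nat.cast_zero, Nat.floor_zero]
      have : (Icc 1 0 : Finset ℕ) = ∅ := by decide
      rw [this, filter_empty, sum_empty]
      exact not_lt.2 (by positivity)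
    rw [h1, card_empty]
    push_cast
    positivity
  -- the parameters
  have hK8 : 8 ≤ KK' c X := (le_max_right _ _).trans a2
  have hKlog : 2 ≤ Real.log (KK' c X) := by
    rw [Real.le_log_iff_exp_le (by positivity)]
    have h1 : Real.exp 2 ≤ 8 := by
      have h2 : Real.exp 2 = Real.exp 1 ^ 2 := by rw [← Real.exp_nat_mul]; norm_num
      have h3 := Real.exp_one_lt_d9
      rw [h2]
      nlinarith [Real.exp_pos 1]
    have h4 : (8 : ℝ) ≤ KK' c X := by exact_mod_cast hK8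
    linarith
  have hQK : ∀ q : ℕ, 1 ≤ q → q ≤ Q → KK' c X ≤ X / q := by
    intro q hq1 hqQ
    rw [Nat.le_div_iff_mul_le hq1]
    have h1 : (KK' c X : ℝ) ≤ Real.exp (yy c X) := Nat.floor_le (Real.exp_pos _).le
    have h2 : yy c X ≤ L ^ c := by
      unfold yy
      exact Real.rpow_le_rpow (by linarith) (by linarith) hc.le
    have h3 : (q : ℝ) ≤ Q := by exact_mod_cast hqQ
    have h4 : (KK' c X : ℝ) * q ≤ X := by
      calc (KK' c X : ℝ) * q ≤ Real.exp (L ^ c) * (X * Real.exp (-L ^ c)) := by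
            apply mul_le_mul (h1.trans (Real.exp_le_exp.2 h2)) (h3.trans hQ) (by positivity) (Real.exp_pos _).le
        _ = X * (Real.exp (L ^ c) * Real.exp (-L ^ c)) := by ring
        _ = X := by rw [← Real.exp_add, add_neg_cancel, Real.exp_zero, mul_one]
    exact_mod_cast h4
  have hQX : Q ≤ X := by
    have h1 := hQK Q hQ1 le_rfl
    by_contra hcon
    rw [Nat.div_eq_of_lt (not_le.1 hcon)] at h1
    omega
  have b1 := hsum X (KK' c X) T Q ((le_max_left _ _).trans a2) hKlog a3 hT1 hTct hQK ι I φ hI g hg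
  set W := ∑ q ∈ Icc 1 Q, ∑ i ∈ I, |Tq g q (φ i)| with hW
  have hW0 : 0 ≤ W := sum_nonneg fun _ _ => sum_nonneg fun _ _ => abs_nonneg _
  set s := (I.card : ℝ) with hs
  -- the root
  have b2 : Real.sqrt (∑ q ∈ Icc 1 Q, (energy I φ q : ℝ)) *
      Real.sqrt (8 * ℓ ^ 3 * X * (2 ^ U / Real.log (KK' c X) ^ U + 1 / T)) ≤ 4 * s ^ 2 / ℓ ^ F := by
    rw [← Real.sqrt_mul (sum_nonneg fun _ _ => by positivity)]
    apply Real.sqrt_le_iff.2
    refine ⟨by positivity, ?_⟩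
    have h1 : 2 ^ U / Real.log (KK' c X) ^ U + 1 / (T : ℝ) ≤ 2 / ℓ ^ E := by
      have h2 : 1 / (T : ℝ) ≤ 1 / ℓ ^ E := one_div_le_one_div_of_le (by positivity) hTge
      calc _ ≤ 1 / ℓ ^ E + 1 / ℓ ^ E := add_le_add a1 h2
        _ = _ := by ring
    have h3 : L ^ C ≤ ℓ ^ C := pow_le_pow_left₀ (by linarith) (by linarith) _
    calc (∑ q ∈ Icc 1 Q, (energy I φ q : ℝ)) * (8 * ℓ ^ 3 * X * (2 ^ U / Real.log (KK' c X) ^ U + 1 / T)) ≤
        (ℓ ^ C * s ^ 4 / X) * (8 * ℓ ^ 3 * X * (2 / ℓ ^ E)) := by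
          apply mul_le_mul _ _ (by positivity) (by positivity)
          · refine hen.trans ?_
            apply div_le_div_of_nonneg_right _ hXp.le
            exact mul_le_mul_of_nonneg_right h3 (by positivity)
          · exact mul_le_mul_of_nonneg_left h1 (by positivity)
      _ = (4 * s ^ 2 / ℓ ^ F) ^ 2 := by
          rw [hE, pow_add, pow_add, pow_mul']
          field_simp
          ring
  have b3 : (Q : ℝ) * coin I φ ≤ s ^ 2 / ℓ ^ F := by
    rw [le_div_iff₀ (by positivity)]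
    have h1 : ℓ ^ F ≤ L ^ (F + 1) := by
      calc ℓ ^ F ≤ (2 * L) ^ F := pow_le_pow_left₀ hℓ0.le (by linarith) _
        _ = 2 ^ F * L ^ F := mul_pow _ _ _
        _ ≤ L * L ^ F := by
          apply mul_le_mul_of_nonneg_right _ (by positivity)
          refine le_trans ?_ a6
          exact pow_le_pow_right₀ (by norm_num) (by omega)
        _ = L ^ (F + 1) := by ring
    calc (Q : ℝ) * coin I φ * ℓ ^ F ≤ Q * coin I φ * L ^ (F + 1) := mul_le_mul_of_nonneg_left h1 (by positivity)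
      _ = Q * L ^ (F + 1) * coin I φ := by ring
      _ ≤ s ^ 2 := hcard
  have b4 : W ^ 2 ≤ (3 * X * s / ℓ ^ G) ^ 2 := by
    calc W ^ 2 ≤ (X : ℝ) ^ 2 * ℓ ^ 5 * (s ^ 2 / ℓ ^ F + 2 * (4 * s ^ 2 / ℓ ^ F)) := by
          refine b1.trans ?_
          apply mul_le_mul_of_nonneg_left _ (by positivity)
          exact add_le_add b3 (mul_le_mul_of_nonneg_left b2 (by norm_num))
      _ = (3 * X * s / ℓ ^ G) ^ 2 := by
          rw [hF, pow_add, pow_mul']
          field_simp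
          ring
  have b5 : W ≤ 3 * X * s / ℓ ^ G := le_of_sq_le_sq b4 (by positivity)
  have b6 := sum_D g X Q hX1 hQ1 hQX I φ
  set bad := I.filter (fun i => (X : ℝ) / L ^ A < D g (φ i) Q) with hbad
  have hL0 : 0 < L := by linarith
  have b7 : (bad.card : ℝ) * (X / L ^ A) ≤ 2 * ℓ ^ 4 * W := by
    refine le_trans ?_ b6
    calc (bad.card : ℝ) * (X / L ^ A) = ∑ _i ∈ bad, (X : ℝ) / L ^ A := by rw [sum_const, nsmul_eq_mul]
      _ ≤ ∑ i ∈ bad, D g (φ i) Q := sum_le_sum fun i hi => (mem_filter.1 hi).2.le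
      _ ≤ _ := sum_le_sum_of_subset_of_nonneg (filter_subset _ _)
          (fun N _ _ => sum_nonneg fun _ _ => abs_nonneg _)
  have b8 : (bad.card : ℝ) * (X / L ^ A) ≤ 6 * X * s / ℓ ^ (A + B + 2) := by
    refine b7.trans ?_
    calc 2 * ℓ ^ 4 * W ≤ 2 * ℓ ^ 4 * (3 * X * s / ℓ ^ G) := mul_le_mul_of_nonneg_left b5 (by positivity)
      _ = _ := by
        rw [hG, show A + B + 6 = (A + B + 2) + 4 by ring, pow_add _ (A + B + 2) 4]
        field_simp
        ring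
  have b9 : (bad.card : ℝ) ≤ 6 * s * L ^ A / ℓ ^ (A + B + 2) := by
    rw [le_div_iff₀ (by positivity)] at b8 ⊢
    have h1 : (bad.card : ℝ) * ℓ ^ (A + B + 2) * (X / L ^ A) ≤ (6 * s * L ^ A) * (X / L ^ A) := by
      calc _ = (bad.card : ℝ) * (X / L ^ A) * ℓ ^ (A + B + 2) := by ring
        _ ≤ 6 * X * s := b8
        _ = _ := by field_simp
    exact le_of_mul_le_mul_right h1 (by positivity)
  refine b9.trans ?_
  rw [div_le_div_iff₀ (by positivity) (by positivity)]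
  have c1 : L ^ A ≤ ℓ ^ A := pow_le_pow_left₀ hL0.le (by linarith) _
  have c2 : L ^ B ≤ ℓ ^ B := pow_le_pow_left₀ hL0.le (by linarith) _
  have c3 : 6 ≤ ℓ ^ 2 := by nlinarith
  calc 6 * s * L ^ A * L ^ B = s * (6 * (L ^ A * L ^ B)) := by ring
    _ ≤ s * (ℓ ^ 2 * (ℓ ^ A * ℓ ^ B)) := by
        apply mul_le_mul_of_nonneg_left _ hS0
        apply mul_le_mul c3 _ (by positivity) (by positivity)
        exact mul_le_mul c1 c2 (by positivity) (by positivity)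
    _ = s * ℓ ^ (A + B + 2) := by rw [pow_add, pow_add]; ring

end Pool.Agent.V7H49.DQ
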