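import Mathlib
import Pool.Agent.V7H49.DQ4
import Pool.Agent.V7H49.DQ3

/-! Almost all the values of a quadratic polynomial. -/

set_option autoImplicit false

namespace Pool.Agent.V7H49.DQ
open Finset Filter Topology
open Pool.Agent.R311.DEH

lemma qv_bounds {a b M : ℕ} {c : ℤ} {x n K : ℕ} (ha : 1 ≤ a) (hM : M = 4 * a + 2 * b + K) (hn : n ∈ Ioc x (2 * x))
    (hc1 : -(3 * (x : ℤ) ^ 2) ≤ 4 * c) (hc2 : c ≤ K * (x : ℤ) ^ 2) :
    (x : ℤ) ^ 2 ≤ 4 * qv a b c n ∧ 0 < qv a b c n ∧ qv a b c n ≤ (M * x ^ 2 : ℕ) := by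
  rw [mem_Ioc] at hn
  have h1 : (x : ℤ) + 1 ≤ n := by exact_mod_cast hn.1
  have h2 : (n : ℤ) ≤ 2 * x := by exact_mod_cast hn.2
  have h3 : (0 : ℤ) ≤ x := by positivity
  have h4 : (1 : ℤ) ≤ a := by exact_mod_cast ha
  have h5 : (0 : ℤ) ≤ b := by positivity
  have hx1 : (1 : ℤ) ≤ x := by omega
  have e1 : ((x : ℤ) + 1) ^ 2 ≤ (n : ℤ) ^ 2 := by nlinarith
  have e2 : (n : ℤ) ^ 2 ≤ 4 * (x : ℤ) ^ 2 := by nlinarith
  have e3 : (0 : ℤ) ≤ (b : ℤ) * n := by positivity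
  have e4 : (b : ℤ) * n ≤ b * (2 * (x : ℤ) ^ 2) := by
    apply mul_le_mul_of_nonneg_left _ h5
    nlinarith
  have e5 : (n : ℤ) ^ 2 ≤ a * (n : ℤ) ^ 2 := by nlinarith [sq_nonneg (n : ℤ)]
  have e6 : (a : ℤ) * (n : ℤ) ^ 2 ≤ a * (4 * (x : ℤ) ^ 2) := mul_le_mul_of_nonneg_left e2 (by linarith)
  unfold qv
  refine ⟨by nlinarith, by nlinarith, ?_⟩
  rw [hM]
  push_cast
  nlinarith

lemma log_ev (V : ℝ) : ∃ x0 : ℕ, ∀ x : ℕ, x0 ≤ x → V ≤ Real.log x :=
  eventually_atTop.1 (tlog.eventually_ge_atTop V)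

theorem base (a b K A B : ℕ) (ha : 1 ≤ a) : ∃ C x0 : ℕ, ∀ x : ℕ, x0 ≤ x → ∀ c : ℤ,
    -(3 * (x : ℤ) ^ 2) ≤ 4 * c → c ≤ K * (x : ℤ) ^ 2 → ∀ g : ℕ → ℝ, (g = g1 ∨ g = g2) →
    (((Ioc x (2 * x)).filter (fun n => ((qv a b c n).toNat : ℝ) / Real.log (qv a b c n).toNat ^ A <
      D g (qv a b c n).toNat (Real.sqrt (qv a b c n).toNat / Real.log (qv a b c n).toNat ^ C))).card : ℝ) ≤
      x / Real.log x ^ B := by
  set M := 4 * a + 2 * b + K with hM
  have hM4 : 4 ≤ M := by omega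
  have hMr : (4 : ℝ) ≤ M := by exact_mod_cast hM4
  obtain ⟨C', X0, hcrit⟩ := criterion (1 / 2) (by norm_num) (by norm_num) (A + 1) B 10
  obtain ⟨x1, h1⟩ := log_ev (512 * (M : ℝ) ^ 2 + 4 + Real.sqrt M * 3 ^ C')
  -- the level is below X exp(- sqrt log X)
  have hev : ∀ᶠ y : ℝ in atTop, 1 ≤ Real.exp ((y / 2)) * Real.exp (-y ^ (1 / 2 : ℝ)) := by
    filter_upwards [eventually_ge_atTop (4 : ℝ)] with y hy
    rw [← Real.exp_add]
    apply Real.one_le_exp
    have h3 : y ^ (1 / 2 : ℝ) = Real.sqrt y := (Real.sqrt_eq_rpow y).symm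
    have h4 : Real.sqrt y ≤ y / 2 := by
      rw [Real.sqrt_le_iff]
      constructor
      · linarith
      · nlinarith
    rw [h3]
    linarith
  obtain ⟨x2, h2⟩ := eventually_atTop.1 (tlog.eventually hev)
  refine ⟨C' + 1, X0 + x1 + x2 + M + 4, fun x hx c hc1 hc2 g hg => ?_⟩
  have hx4 : 4 ≤ x := by omega
  have hxM : M ≤ x := by omega
  have hxr : (4 : ℝ) ≤ x := by exact_mod_cast hx4
  have hxMr : (M : ℝ) ≤ x := by exact_mod_cast hxM
  set X := M * x ^ 2 with hXdef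
  have hxX : x ≤ X := by
    rw [hXdef]
    nlinarith
  have hXr : (X : ℝ) = M * (x : ℝ) ^ 2 := by rw [hXdef]; push_cast; ring
  have hXp : (0 : ℝ) < X := by rw [hXr]; positivity
  have k1 := h1 x (by omega)
  have k2 := h2 X (by omega)
  set lx := Real.log x with hlx
  set LX := Real.log X with hLX
  have hs0 : 0 ≤ Real.sqrt M * 3 ^ C' := by positivity
  have hM20 : 0 ≤ 512 * (M : ℝ) ^ 2 := by positivity
  have hlx4 : 4 ≤ lx := by linarith
  have hLXge : lx ≤ LX := Real.log_le_log (by linarith) (by exact_mod_cast hxX)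
  have hLXle : LX ≤ 3 * lx := by
    rw [hLX, hXr, Real.log_mul (by positivity) (by positivity), Real.log_pow]
    have : Real.log M ≤ Real.log x := Real.log_le_log (by linarith) hxMr
    push_cast
    linarith
  have hb : ∀ n ∈ Ioc x (2 * x), (x : ℤ) ^ 2 ≤ 4 * qv a b c n ∧ 0 < qv a b c n ∧ qv a b c n ≤ (X : ℤ) :=
    fun n hn => qv_bounds ha hM hn hc1 hc2
  set F : ℕ → ℕ := fun n => (qv a b c n).toNat with hF
  have hFq : F = qn a b c := rfl
  have hFcast : ∀ n ∈ Ioc x (2 * x), ((F n : ℕ) : ℤ) = qv a b c n := by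
    intro n hn
    have := (hb n hn).2.1
    rw [hF]
    simp only
    omega
  have hinj : Set.InjOn F (Ioc x (2 * x) : Finset ℕ) := by
    intro n hn m hm h
    have e1 := hFcast n hn
    have e2 := hFcast m hm
    rcases lt_trichotomy n m with h3 | h3 | h3
    · have := qv_lt (b := b) (c := c) ha h3
      rw [h] at e1
      omega
    · exact h3
    · have := qv_lt (b := b) (c := c) ha h3
      rw [h] at e1
      omega
  have hcardI : (Ioc x (2 * x)).card = x := by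
    rw [Nat.card_Ioc]
    omega
  have hcoin : coin (Ioc x (2 * x)) (qn a b c) ≤ x := by
    unfold coin
    refine le_trans (card_le_card_of_injOn (fun p => p.1) (t := Ioc x (2 * x)) ?_ ?_) (le_of_eq hcardI)
    · rintro ⟨n, m⟩ hp
      simp only [coe_filter, mem_product, Set.mem_ofPred_eq] at hp
      exact hp.1.1
    · rintro ⟨n, m⟩ hp ⟨n', m'⟩ hp' heq
      simp only [coe_filter, mem_product, Set.mem_ofPred_eq] at hp hp' heq
      have e1 := hinj hp.1.1 hp.1.2 (by rw [hFq]; exact hp.2)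
      have e2 := hinj hp'.1.1 hp'.1.2 (by rw [hFq]; exact hp'.2)
      ext
      · exact heq
      · simp only
        rw [← e1, ← e2, heq]
  have hSX : ∀ n ∈ Ioc x (2 * x), qn a b c n ∈ Icc 1 X := by
    intro n hn
    have := hb n hn
    rw [mem_Icc]
    unfold qn
    omega
  set Q := ⌊(x : ℝ) / LX ^ C'⌋₊ with hQ
  have hLX0 : 0 < LX := by linarith
  have hQle : (Q : ℝ) ≤ x / LX ^ C' := Nat.floor_le (by positivity)
  have hQx : (Q : ℝ) ≤ x := by
    refine hQle.trans ?_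
    apply div_le_self (by linarith)
    exact one_le_pow₀ (by linarith)
  have hQX : (Q : ℝ) ≤ X * Real.exp (-LX ^ (1 / 2 : ℝ)) := by
    have e1 : (x : ℝ) ≤ Real.exp (LX / 2) := by
      have e2 : Real.exp (LX / 2) * Real.exp (LX / 2) = X := by
        rw [← Real.exp_add, add_halves, hLX, Real.exp_log hXp]
      have e3 : (0 : ℝ) < Real.exp (LX / 2) := Real.exp_pos _
      have e4 : (x : ℝ) * x ≤ Real.exp (LX / 2) * Real.exp (LX / 2) := by
        rw [e2, hXr]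
        nlinarith
      nlinarith
    have e5 : (X : ℝ) = Real.exp (LX / 2) * Real.exp (LX / 2) := by
      rw [← Real.exp_add, add_halves, hLX, Real.exp_log hXp]
    calc (Q : ℝ) ≤ x := hQx
      _ ≤ Real.exp (LX / 2) * 1 := by rw [mul_one]; exact e1
      _ ≤ Real.exp (LX / 2) * (Real.exp (LX / 2) * Real.exp (-LX ^ (1 / 2 : ℝ))) :=
          mul_le_mul_of_nonneg_left k2 (Real.exp_pos _).le
      _ = _ := by rw [← mul_assoc, ← e5]
  have hcard : (Q : ℝ) * LX ^ C' * coin (Ioc x (2 * x)) (qn a b c) ≤ ((Ioc x (2 * x)).card : ℝ) ^ 2 := by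
    rw [hcardI]
    rw [le_div_iff₀ (by positivity)] at hQle
    have e1 : ((coin (Ioc x (2 * x)) (qn a b c) : ℕ) : ℝ) ≤ x := by exact_mod_cast hcoin
    calc (Q : ℝ) * LX ^ C' * coin (Ioc x (2 * x)) (qn a b c) ≤ x * x :=
          mul_le_mul hQle e1 (by positivity) (by positivity)
      _ = _ := by ring
  have hen : (∑ q ∈ Icc 1 Q, (energy (Ioc x (2 * x)) (qn a b c) q : ℝ)) ≤
      LX ^ 10 * ((Ioc x (2 * x)).card : ℝ) ^ 4 / X := by
    refine (sum_energy a b c x X Q ha (fun n hn => ⟨(hb n hn).2.1, (hb n hn).2.2⟩)).trans ?_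
    rw [← hLX, le_div_iff₀ hXp, hcardI, hXr]
    have e1 : (1 + LX) ^ 8 ≤ 256 * LX ^ 8 := by
      calc (1 + LX) ^ 8 ≤ (2 * LX) ^ 8 := pow_le_pow_left₀ (by linarith) (by linarith) _
        _ = _ := by rw [mul_pow]; norm_num
    have e2 : 512 * (M : ℝ) ^ 2 ≤ LX ^ 2 := by nlinarith
    calc 2 * ((M * (x : ℝ) ^ 2) * (1 + LX) ^ 8) * (M * (x : ℝ) ^ 2) =
        (2 * M ^ 2 * (1 + LX) ^ 8) * (x : ℝ) ^ 4 := by ring
      _ ≤ (2 * M ^ 2 * (256 * LX ^ 8)) * (x : ℝ) ^ 4 := by gcongr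
      _ = ((512 * (M : ℝ) ^ 2) * LX ^ 8) * (x : ℝ) ^ 4 := by ring
      _ ≤ (LX ^ 2 * LX ^ 8) * (x : ℝ) ^ 4 := by gcongr
      _ = _ := by ring
  have hmain := hcrit X (by omega) Q hQX ℕ (Ioc x (2 * x)) (qn a b c) hSX hcard hen g hg
  rw [hcardI] at hmain
  have hfin : (x : ℝ) / LX ^ B ≤ x / lx ^ B := by
    apply div_le_div_of_nonneg_left (by linarith) (by positivity)
    exact pow_le_pow_left₀ (by linarith) hLXge _
  refine le_trans ?_ (hmain.trans hfin)
  have hle : ((Ioc x (2 * x)).filter (fun n => ((F n : ℕ) : ℝ) / Real.log (F n : ℕ) ^ A <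
      D g (F n) (Real.sqrt (F n : ℕ) / Real.log (F n : ℕ) ^ (C' + 1)))).card ≤
      ((Ioc x (2 * x)).filter (fun n => (X : ℝ) / LX ^ (A + 1) < D g (qn a b c n) Q)).card := by
    apply card_le_card
    · intro n hn
      rw [mem_filter] at hn ⊢
      obtain ⟨hn1, hn2⟩ := hn
      have hbn := hb n hn1
      have hcast := hFcast n hn1
      refine ⟨hn1, ?_⟩
      have hNX : ((F n : ℕ) : ℝ) ≤ X := by
        have : F n ≤ X := by omega
        exact_mod_cast this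
      have hNx : (x : ℝ) ^ 2 ≤ 4 * ((F n : ℕ) : ℝ) := by
        have : (x : ℤ) ^ 2 ≤ 4 * ((F n : ℕ) : ℤ) := by rw [hcast]; exact hbn.1
        exact_mod_cast this
      have hN0 : (0 : ℝ) < ((F n : ℕ) : ℝ) := by nlinarith
      have hNge : (x : ℝ) ≤ ((F n : ℕ) : ℝ) := by nlinarith
      have hlN1 : lx ≤ Real.log (F n : ℕ) := Real.log_le_log (by linarith) hNge
      have hlN2 : Real.log (F n : ℕ) ≤ LX := Real.log_le_log hN0 hNX
      have hlN0 : 0 < Real.log (F n : ℕ) := by linarith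
      have t1 : (X : ℝ) / LX ^ (A + 1) ≤ ((F n : ℕ) : ℝ) / Real.log (F n : ℕ) ^ A := by
        rw [div_le_div_iff₀ (by positivity) (by positivity), hXr]
        have e1 : Real.log (F n : ℕ) ^ A ≤ LX ^ A := pow_le_pow_left₀ hlN0.le hlN2 _
        have e2 : M * (x : ℝ) ^ 2 ≤ (4 * M) * ((F n : ℕ) : ℝ) := by nlinarith
        have e3 : 4 * (M : ℝ) ≤ LX := by nlinarith
        calc M * (x : ℝ) ^ 2 * Real.log (F n : ℕ) ^ A ≤ ((4 * M) * ((F n : ℕ) : ℝ)) * LX ^ A :=
              mul_le_mul e2 e1 (by positivity) (by positivity)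
          _ ≤ (LX * ((F n : ℕ) : ℝ)) * LX ^ A := by gcongr
          _ = _ := by ring
      refine lt_of_le_of_lt t1 (hn2.trans_le ?_)
      have t2 : Real.sqrt (F n : ℕ) / Real.log (F n : ℕ) ^ (C' + 1) ≤ x / LX ^ C' := by
        rw [div_le_div_iff₀ (by positivity) (by positivity)]
        have e1 : Real.sqrt (F n : ℕ) ≤ Real.sqrt M * x := by
          have : Real.sqrt ((M : ℝ) * (x : ℝ) ^ 2) = Real.sqrt M * x := by
            rw [Real.sqrt_mul (by positivity), Real.sqrt_sq (by linarith)]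
          rw [← this, ← hXr]
          exact Real.sqrt_le_sqrt hNX
        have e2 : LX ^ C' ≤ 3 ^ C' * lx ^ C' := by
          rw [← mul_pow]
          exact pow_le_pow_left₀ hLX0.le hLXle _
        have e3 : lx ^ (C' + 1) ≤ Real.log (F n : ℕ) ^ (C' + 1) := pow_le_pow_left₀ (by linarith) hlN1 _
        calc Real.sqrt (F n : ℕ) * LX ^ C' ≤ (Real.sqrt M * x) * (3 ^ C' * lx ^ C') :=
              mul_le_mul e1 e2 (by positivity) (by positivity)
          _ = (Real.sqrt M * 3 ^ C') * (x * lx ^ C') := by ring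
          _ ≤ lx * (x * lx ^ C') := by
              apply mul_le_mul_of_nonneg_right _ (by positivity)
              linarith
          _ = x * lx ^ (C' + 1) := by ring
          _ ≤ x * Real.log (F n : ℕ) ^ (C' + 1) := mul_le_mul_of_nonneg_left e3 (by positivity)
      refine (D_mono g (F n) t2).trans (le_of_eq ?_)
      unfold D
      rw [Nat.floor_natCast]
      rfl
  exact_mod_cast hle

end Pool.Agent.V7H49.DQ
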