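import Mathlib
import Pool.Agent.V7H49.DQ5

/-! Windows around the values of a quadratic polynomial, and one exceptional set. -/

set_option autoImplicit false

namespace Pool.Agent.V7H49.DQ
open Finset Filter Topology
open Pool.Agent.R311.DEH

lemma log_pow_ev (C : ℕ) (r : ℝ) (hr : 0 < r) (V : ℝ) : ∃ x0 : ℕ, ∀ x : ℕ, x0 ≤ x →
    V * Real.log x ^ C ≤ (x : ℝ) ^ r := by
  have h := (isLittleO_log_rpow_rpow_atTop (C : ℝ) hr).bound (show (0 : ℝ) < 1 / (|V| + 1) by positivity)
  have h2 := tendsto_natCast_atTop_atTop.eventually (h.and (eventually_ge_atTop (1 : ℝ)))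
  obtain ⟨x0, h3⟩ := eventually_atTop.1 h2
  refine ⟨x0, fun x hx => ?_⟩
  obtain ⟨h4, h5⟩ := h3 x hx
  have hl : 0 ≤ Real.log x := Real.log_nonneg h5
  rw [Real.norm_of_nonneg (by positivity), Real.norm_of_nonneg (by positivity), Real.rpow_natCast,
    one_div, inv_mul_eq_div, le_div_iff₀ (by positivity)] at h4
  have h6 : V ≤ |V| + 1 := by
    have := le_abs_self V
    linarith
  calc V * Real.log x ^ C ≤ (|V| + 1) * Real.log x ^ C := mul_le_mul_of_nonneg_right h6 (by positivity)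
    _ = Real.log x ^ C * (|V| + 1) := by ring
    _ ≤ _ := h4

/-- the arguments `n` for which the bound fails near the value -/
def Bd (a b : ℕ) (c : ℤ) (w : ℝ) (P : ℕ → Prop) (n : ℕ) : Prop :=
  ∃ N : ℕ, |(N : ℝ) - (a * (n : ℝ) ^ 2 + b * n + c)| ≤ w ∧ P N

open Classical in
theorem windows (a b K A B W : ℕ) (ha : 1 ≤ a) : ∃ C x0 : ℕ, ∀ x : ℕ, x0 ≤ x → ∀ c : ℤ,
    -((x : ℤ) ^ 2) ≤ 2 * c → c ≤ K * (x : ℤ) ^ 2 →
    (((Ioc x (2 * x)).filter (fun n => Bd a b c (Real.log x ^ W) (fun N => ∃ g : ℕ → ℝ, (g = g1 ∨ g = g2) ∧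
      (N : ℝ) / Real.log N ^ A < D g N (Real.sqrt N / Real.log N ^ C)) n)).card : ℝ) ≤
      x / Real.log x ^ B := by
  obtain ⟨C, x1, hbase⟩ := base a b (K + 1) A (B + W + 1) ha
  obtain ⟨x2, h2⟩ := log_ev 6
  obtain ⟨x3, h3⟩ := log_pow_ev W 1 one_pos 1
  refine ⟨C, x1 + x2 + x3 + 4, fun x hx c hc1 hc2 => ?_⟩
  have hx4 : 4 ≤ x := by omega
  have hxr : (4 : ℝ) ≤ x := by exact_mod_cast hx4
  have k2 := h2 x (by omega)
  have k3 := h3 x (by omega)
  rw [one_mul, Real.rpow_one] at k3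
  set lx := Real.log x with hlx
  set w := ⌊lx ^ W⌋₊ with hw
  have hw1 : (w : ℝ) ≤ lx ^ W := Nat.floor_le (by positivity)
  have hwx : w ≤ x := by
    have : (w : ℝ) ≤ x := hw1.trans k3
    exact_mod_cast this
  have hw1' : 1 ≤ lx ^ W := one_le_pow₀ (by linarith)
  set T : ℤ → (ℕ → ℝ) → Finset ℕ := fun j g => (Ioc x (2 * x)).filter (fun n =>
    ((qv a b (c + j) n).toNat : ℝ) / Real.log (qv a b (c + j) n).toNat ^ A <
      D g (qv a b (c + j) n).toNat (Real.sqrt (qv a b (c + j) n).toNat /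
        Real.log (qv a b (c + j) n).toNat ^ C)) with hT
  have hTcard : ∀ j ∈ Icc (-(w : ℤ)) w, ∀ g : ℕ → ℝ, (g = g1 ∨ g = g2) →
      ((T j g).card : ℝ) ≤ x / lx ^ (B + W + 1) := by
    intro j hj g hg
    rw [mem_Icc] at hj
    have hwx' : (w : ℤ) ≤ x := by exact_mod_cast hwx
    have hx4' : (4 : ℤ) ≤ x := by exact_mod_cast hx4
    have e1 : 4 * (w : ℤ) ≤ (x : ℤ) ^ 2 := by nlinarith
    apply hbase x (by omega) (c + j) _ _ g hg
    · linarith [hj.1]
    · push_cast
      nlinarith [hj.2]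
  have hsub : (Ioc x (2 * x)).filter (fun n => Bd a b c (lx ^ W) (fun N => ∃ g : ℕ → ℝ, (g = g1 ∨ g = g2) ∧
      (N : ℝ) / Real.log N ^ A < D g N (Real.sqrt N / Real.log N ^ C)) n) ⊆
      (Icc (-(w : ℤ)) w).biUnion (fun j => T j g1 ∪ T j g2) := by
    intro n hn
    rw [mem_filter] at hn
    obtain ⟨hn1, N, hN1, g, hg, hN2⟩ := hn
    rw [mem_biUnion]
    set j : ℤ := (N : ℤ) - qv a b c n with hj
    have e1 : ((j : ℤ) : ℝ) = (N : ℝ) - (a * (n : ℝ) ^ 2 + b * n + c) := by
      rw [hj]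
      unfold qv
      push_cast
      ring
    have e2 : ((j.natAbs : ℕ) : ℝ) ≤ lx ^ W := by
      rw [Nat.cast_natAbs, Int.cast_abs, e1]
      exact hN1
    have e3 : j.natAbs ≤ w := Nat.le_floor e2
    have e4 : qv a b (c + j) n = N := by
      rw [hj]
      unfold qv
      ring
    have e5 : (qv a b (c + j) n).toNat = N := by omega
    refine ⟨j, by rw [mem_Icc]; omega, ?_⟩
    rw [mem_union]
    rcases hg with rfl | rfl
    · left
      rw [hT, mem_filter]
      refine ⟨hn1, ?_⟩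
      rw [e5]
      exact hN2
    · right
      rw [hT, mem_filter]
      refine ⟨hn1, ?_⟩
      rw [e5]
      exact hN2
  have h5 : (((Ioc x (2 * x)).filter (fun n => Bd a b c (lx ^ W) (fun N => ∃ g : ℕ → ℝ, (g = g1 ∨ g = g2) ∧
      (N : ℝ) / Real.log N ^ A < D g N (Real.sqrt N / Real.log N ^ C)) n)).card : ℝ) ≤
      ∑ j ∈ Icc (-(w : ℤ)) w, (((T j g1).card : ℝ) + (T j g2).card) := by
    have e1 := (card_le_card hsub).trans card_biUnion_le
    have e2 : ∑ j ∈ Icc (-(w : ℤ)) w, (T j g1 ∪ T j g2).card ≤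
        ∑ j ∈ Icc (-(w : ℤ)) w, ((T j g1).card + (T j g2).card) := sum_le_sum fun j _ => card_union_le _ _
    exact_mod_cast e1.trans e2
  refine h5.trans ?_
  have h6 : ∑ j ∈ Icc (-(w : ℤ)) w, (((T j g1).card : ℝ) + (T j g2).card) ≤
      ∑ _j ∈ Icc (-(w : ℤ)) w, (2 * (x / lx ^ (B + W + 1))) := by
    apply sum_le_sum
    intro j hj
    have e1 := hTcard j hj g1 (Or.inl rfl)
    have e2 := hTcard j hj g2 (Or.inr rfl)
    linarith
  refine h6.trans ?_
  rw [sum_const, Int.card_Icc, nsmul_eq_mul]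
  have h7 : (((w : ℤ) + 1 - -(w : ℤ)).toNat : ℝ) = 2 * w + 1 := by
    have : ((w : ℤ) + 1 - -(w : ℤ)).toNat = 2 * w + 1 := by omega
    rw [this]
    push_cast
    ring
  rw [h7]
  have hlx0 : 0 < lx := by linarith
  calc (2 * (w : ℝ) + 1) * (2 * (x / lx ^ (B + W + 1))) ≤ (3 * lx ^ W) * (2 * (x / lx ^ (B + W + 1))) := by
        apply mul_le_mul_of_nonneg_right _ (by positivity)
        linarith
    _ = 6 * (lx ^ W * (x / lx ^ (B + W + 1))) := by ring
    _ ≤ lx * (lx ^ W * (x / lx ^ (B + W + 1))) := mul_le_mul_of_nonneg_right k2 (by positivity)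
    _ = x / lx ^ B := by
        rw [show B + W + 1 = B + (W + 1) by ring, pow_add lx B (W + 1), pow_succ]
        field_simp

open Classical in
/-- from dyadic blocks to intervals -/
lemma dyadic (P : ℕ → Prop) (k : ℕ) (h : ∃ x0 : ℕ, ∀ x : ℕ, x0 ≤ x →
    (((Ioc x (2 * x)).filter P).card : ℝ) ≤ x / Real.log x ^ (k + 2)) :
    ∃ X0 : ℕ, ∀ X : ℕ, X0 ≤ X → (((Icc 1 X).filter P).card : ℝ) ≤ X / Real.log X ^ k := by
  obtain ⟨x0, h0⟩ := h
  obtain ⟨x1, h1⟩ := log_pow_ev (k + 2) 1 one_pos 1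
  obtain ⟨x2, h2⟩ := log_ev 2
  obtain ⟨x3, h3⟩ := log_pow_ev k (1 / 2) (by norm_num) 4
  obtain ⟨x4, h4⟩ := log_ev (4 * 4 ^ (k + 2))
  set z := x0 + x1 + x2 + 2 with hz
  refine ⟨(z + 1) ^ 2 + x3 + x4, fun X hX => ?_⟩
  set s := Nat.sqrt X with hs
  have hsz : z + 1 ≤ s := by
    rw [hs, Nat.le_sqrt]
    nlinarith
  have hsX : s * s ≤ X := Nat.sqrt_le _
  have hXs : X < (s + 1) * (s + 1) := Nat.lt_succ_sqrt _
  have hs2 : (2 : ℝ) ≤ Real.log s := h2 s (by omega)
  have hs0 : (0 : ℝ) < s := by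
    have : 1 ≤ s := by omega
    exact_mod_cast this
  set lam := Real.log s ^ (k + 2) with hlam
  have hlam0 : 0 < lam := by positivity
  have hslam : lam ≤ s := by
    have := h1 s (by omega)
    rwa [one_mul, Real.rpow_one] at this
  have key : ∀ y : ℕ, (((Icc 1 y).filter P).card : ℝ) ≤ 2 * s + 2 * (y / lam) := by
    intro y
    induction y using Nat.strong_induction_on with
    | _ y ih =>
      rcases le_or_gt y (2 * s) with hy | hy
      · have e1 : (((Icc 1 y).filter P).card : ℝ) ≤ y := by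
          have := card_filter_le (Icc 1 y) P
          rw [Nat.card_Icc, Nat.add_sub_cancel] at this
          exact_mod_cast this
        have e2 : (y : ℝ) ≤ 2 * s := by exact_mod_cast hy
        have e3 : (0 : ℝ) ≤ 2 * (y / lam) := by positivity
        linarith
      · set x := y / 2 with hx
        have hxs : s ≤ x := by omega
        have hxy : 2 * x ≤ y := by omega
        have hyx : y ≤ 2 * x + 1 := by omega
        have e1 := ih x (by omega)
        have e2 := h0 x (by omega)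
        have e3 : (x : ℝ) / Real.log x ^ (k + 2) ≤ x / lam := by
          apply div_le_div_of_nonneg_left (by positivity) hlam0
          apply pow_le_pow_left₀ (by linarith)
          exact Real.log_le_log hs0 (by exact_mod_cast hxs)
        have e4 : (Icc 1 y).filter P ⊆ ((Icc 1 x).filter P ∪ (Ioc x (2 * x)).filter P) ∪ {2 * x + 1} := by
          intro n hn
          rw [mem_filter, mem_Icc] at hn
          rw [mem_union, mem_union, mem_filter, mem_filter, mem_singleton, mem_Icc, mem_Ioc]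
          rcases le_or_gt n x with h5 | h5
          · exact Or.inl (Or.inl ⟨⟨hn.1.1, h5⟩, hn.2⟩)
          · rcases le_or_gt n (2 * x) with h6 | h6
            · exact Or.inl (Or.inr ⟨⟨h5, h6⟩, hn.2⟩)
            · right; omega
        have e5 : (((Icc 1 y).filter P).card : ℝ) ≤ ((Icc 1 x).filter P).card + ((Ioc x (2 * x)).filter P).card + 1 := by
          have h5 := (card_le_card e4).trans (card_union_le _ _)
          have h6 := card_union_le ((Icc 1 x).filter P) ((Ioc x (2 * x)).filter P)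
          rw [card_singleton] at h5
          exact_mod_cast h5.trans (Nat.add_le_add_right h6 1)
        have e6 : (1 : ℝ) ≤ x / lam := by
          rw [le_div_iff₀ hlam0, one_mul]
          have : (s : ℝ) ≤ x := by exact_mod_cast hxs
          linarith
        have e7 : 2 * ((x : ℝ) / lam) ≤ y / lam := by
          rw [← mul_div_assoc]
          apply div_le_div_of_nonneg_right _ hlam0.le
          exact_mod_cast hxy
        linarith
  refine (key X).trans ?_
  have hX1 : 1 ≤ X := by nlinarith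
  have hXp : (0 : ℝ) < X := by exact_mod_cast hX1
  have k3 := h3 X (by omega)
  have k4 := h4 X (by omega)
  set L := Real.log X with hL
  have hs1 : (1 : ℝ) ≤ s := by exact_mod_cast (show 1 ≤ s by omega)
  have hLs : L ≤ 4 * Real.log s := by
    have e1 : (X : ℝ) ≤ (s : ℝ) ^ 4 := by
      have e2 : X ≤ s ^ 4 := by
        have : (s + 1) * (s + 1) ≤ s ^ 4 := by
          have h5 : s + 1 ≤ s * s := by nlinarith
          calc (s + 1) * (s + 1) ≤ (s * s) * (s * s) := Nat.mul_le_mul h5 h5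
            _ = s ^ 4 := by ring
        omega
      exact_mod_cast e2
    have e3 := Real.log_le_log hXp e1
    rw [Real.log_pow] at e3
    push_cast at e3
    exact e3
  have hLs2 : Real.log s ≤ L := Real.log_le_log hs0 (by
    have : s ≤ X := by nlinarith
    exact_mod_cast this)
  have hL2 : 2 ≤ L := by linarith
  have hL0 : 0 < L := by linarith
  have f1 : 2 * (s : ℝ) ≤ (1 / 2) * (X / L ^ k) := by
    have e1 : (s : ℝ) ≤ (X : ℝ) ^ (1 / 2 : ℝ) := by
      rw [← Real.sqrt_eq_rpow]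
      apply Real.le_sqrt_of_sq_le
      have : (s : ℝ) * s ≤ X := by exact_mod_cast hsX
      nlinarith
    have e2 : (X : ℝ) ^ (1 / 2 : ℝ) * (X : ℝ) ^ (1 / 2 : ℝ) = X := by
      rw [← Real.rpow_add hXp]
      norm_num
    have e3 : 0 ≤ (X : ℝ) ^ (1 / 2 : ℝ) := by positivity
    rw [← mul_div_assoc, le_div_iff₀ (by positivity)]
    calc 2 * (s : ℝ) * L ^ k = (1 / 2) * (s * (4 * L ^ k)) := by ring
      _ ≤ (1 / 2) * ((X : ℝ) ^ (1 / 2 : ℝ) * (X : ℝ) ^ (1 / 2 : ℝ)) := by
          apply mul_le_mul_of_nonneg_left _ (by norm_num)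
          exact mul_le_mul e1 k3 (by positivity) e3
      _ = _ := by rw [e2]
  have f2 : 2 * ((X : ℝ) / lam) ≤ (1 / 2) * (X / L ^ k) := by
    have e1 : L ^ (k + 2) ≤ 4 ^ (k + 2) * lam := by
      rw [hlam, ← mul_pow]
      exact pow_le_pow_left₀ hL0.le hLs _
    have e2 : 4 * L ^ k ≤ lam := by
      have e3 : (4 : ℝ) ^ (k + 2) * (4 * L ^ k) ≤ 4 ^ (k + 2) * lam := by
        refine le_trans ?_ e1
        calc (4 : ℝ) ^ (k + 2) * (4 * L ^ k) = (4 * 4 ^ (k + 2)) * L ^ k := by ring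
          _ ≤ L * L ^ k := mul_le_mul_of_nonneg_right k4 (by positivity)
          _ ≤ L * (L * L ^ k) := by
              apply mul_le_mul_of_nonneg_left _ hL0.le
              have : 0 ≤ L ^ k := by positivity
              nlinarith
          _ = L ^ (k + 2) := by ring
      exact le_of_mul_le_mul_left e3 (by positivity)
    calc 2 * ((X : ℝ) / lam) ≤ 2 * (X / (4 * L ^ k)) := by
          apply mul_le_mul_of_nonneg_left _ (by norm_num)
          exact div_le_div_of_nonneg_left hXp.le (by positivity) e2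
      _ = _ := by field_simp; norm_num
  linarith

end Pool.Agent.V7H49.DQ
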