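import Mathlib
import Pool.Agent.V7H49.DQ3

/-! The coincidences between the differences of the numbers `a n^2 + b n + m`, `m` in an arbitrary set. -/

set_option autoImplicit false

namespace Pool.Agent.V7H49.DQ
open Finset

/-- the value `a n^2 + b n + m` -/
def pv (a b : ℕ) (i : ℕ × ℤ) : ℤ := qv a b i.2 i.1

/-- the value as a natural number -/
def pn (a b : ℕ) (i : ℕ × ℤ) : ℕ := (pv a b i).toNat

/-- the index set -/
def pI (x : ℕ) (M : Finset ℤ) : Finset (ℕ × ℤ) := Ioc x (2 * x) ×ˢ M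

lemma pv_eq (a b : ℕ) (i : ℕ × ℤ) : pv a b i = qv a b 0 i.1 + i.2 := by
  unfold pv qv
  ring

/-- the nonzero differences -/
noncomputable def JJ (X : ℕ) : Finset ℤ := (Icc (-(X : ℤ)) X).erase 0

/-- the number of representations of a difference -/
def rr (a b x : ℕ) (M : Finset ℤ) (D : ℤ) : ℕ :=
  ((pI x M ×ˢ pI x M).filter (fun p => pv a b p.1 - pv a b p.2 = D)).card

/-- the representations with the same `n` -/
def r1 (a b x : ℕ) (M : Finset ℤ) (D : ℤ) : ℕ :=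
  ((pI x M ×ˢ pI x M).filter (fun p => p.1.1 = p.2.1 ∧ pv a b p.1 - pv a b p.2 = D)).card

/-- the representations with different `n` -/
def r2 (a b x : ℕ) (M : Finset ℤ) (D : ℤ) : ℕ :=
  ((pI x M ×ˢ pI x M).filter (fun p => p.1.1 ≠ p.2.1 ∧ pv a b p.1 - pv a b p.2 = D)).card

/-- the representations of `u` by the quadratic polynomial -/
def rho (a b x : ℕ) (u : ℤ) : ℕ :=
  ((Ioc x (2 * x) ×ˢ Ioc x (2 * x)).filter (fun p => p.1 ≠ p.2 ∧ qv a b 0 p.1 - qv a b 0 p.2 = u)).card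

lemma rr_le (a b x : ℕ) (M : Finset ℤ) (D : ℤ) : rr a b x M D ≤ r1 a b x M D + r2 a b x M D := by
  unfold rr r1 r2
  refine le_trans (card_le_card ?_) (card_union_le _ _)
  intro p hp
  rw [mem_filter] at hp
  rw [mem_union, mem_filter, mem_filter]
  by_cases h : p.1.1 = p.2.1
  · exact Or.inl ⟨hp.1, h, hp.2⟩
  · exact Or.inr ⟨hp.1, h, hp.2⟩

lemma energy_le_rr (a b x X q : ℕ) (M : Finset ℤ)
    (hI : ∀ i ∈ pI x M, 0 < pv a b i ∧ pv a b i ≤ X) :
    energy (pI x M) (pn a b) q ≤ ∑ D ∈ (JJ X).filter (fun D => (q : ℤ) ∣ D), rr a b x M D ^ 2 := by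
  unfold energy
  rw [card_eq_sum_card_fiberwise (t := (JJ X).filter (fun D => (q : ℤ) ∣ D))
    (f := fun p => pv a b p.1.1 - pv a b p.1.2)]
  · apply sum_le_sum
    intro D _
    rw [sq]
    unfold rr
    rw [← card_product]
    apply card_le_card
    rintro ⟨⟨i1, i2⟩, ⟨i3, i4⟩⟩ hp
    simp only [mem_filter, mem_product] at hp ⊢
    obtain ⟨⟨⟨⟨h1, h2⟩, h3, h4⟩, -, -, h5⟩, h6⟩ := hp
    have p1 := (hI i1 h1).1
    have p2 := (hI i2 h2).1
    have p3 := (hI i3 h3).1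
    have p4 := (hI i4 h4).1
    unfold pn at h5
    exact ⟨⟨⟨h1, h2⟩, h6⟩, ⟨h3, h4⟩, by omega⟩
  · rintro ⟨⟨i1, i2⟩, ⟨i3, i4⟩⟩ hp
    simp only [coe_filter, mem_product, Set.mem_ofPred_eq] at hp ⊢
    obtain ⟨⟨⟨h1, h2⟩, h3, h4⟩, h5, h6, h7⟩ := hp
    have p1 := hI i1 h1
    have p2 := hI i2 h2
    have f1 : ((pn a b i1 : ℕ) : ℤ) = pv a b i1 := by unfold pn; omega
    have f2 : ((pn a b i2 : ℕ) : ℤ) = pv a b i2 := by unfold pn; omega
    refine ⟨?_, ?_⟩
    · unfold JJ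
      rw [mem_erase, mem_Icc]
      refine ⟨?_, by omega, by omega⟩
      intro h0
      apply h5
      omega
    · rw [← f1, ← f2]
      exact (Nat.modEq_iff_dvd.1 h6.symm)

lemma sum_energy_rr (a b x X Q : ℕ) (M : Finset ℤ)
    (hI : ∀ i ∈ pI x M, 0 < pv a b i ∧ pv a b i ≤ X) :
    ∑ q ∈ Icc 1 Q, (energy (pI x M) (pn a b) q : ℝ) ≤
      ∑ D ∈ JJ X, (rr a b x M D : ℝ) ^ 2 * (D.natAbs.divisors.card : ℝ) := by
  have h1 : ∑ q ∈ Icc 1 Q, energy (pI x M) (pn a b) q ≤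
      ∑ q ∈ Icc 1 Q, ∑ D ∈ (JJ X).filter (fun D => (q : ℤ) ∣ D), rr a b x M D ^ 2 :=
    sum_le_sum fun q _ => energy_le_rr a b x X q M hI
  have h2 : ∑ q ∈ Icc 1 Q, ∑ D ∈ (JJ X).filter (fun D => (q : ℤ) ∣ D), rr a b x M D ^ 2 =
      ∑ D ∈ JJ X, rr a b x M D ^ 2 * ((Icc 1 Q).filter (fun q : ℕ => (q : ℤ) ∣ D)).card := by
    simp_rw [sum_filter]
    rw [sum_comm]
    apply sum_congr rfl
    intro D _
    rw [← sum_filter, sum_const, smul_eq_mul, mul_comm]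
  have h3 : ∑ D ∈ JJ X, rr a b x M D ^ 2 * ((Icc 1 Q).filter (fun q : ℕ => (q : ℤ) ∣ D)).card ≤
      ∑ D ∈ JJ X, rr a b x M D ^ 2 * D.natAbs.divisors.card := by
    apply sum_le_sum
    intro D hD
    apply Nat.mul_le_mul_left
    apply card_le_card
    intro q hq
    rw [mem_filter] at hq
    rw [Nat.mem_divisors]
    unfold JJ at hD
    rw [mem_erase] at hD
    exact ⟨Int.natCast_dvd.1 hq.2, by omega⟩
  have h4 := (h1.trans (le_of_eq h2)).trans h3
  exact_mod_cast h4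

lemma r1_le (a b x : ℕ) (M : Finset ℤ) (D : ℤ) : r1 a b x M D ≤ x * M.card := by
  unfold r1
  have h1 : (pI x M).card = x * M.card := by
    unfold pI
    rw [card_product, Nat.card_Ioc]
    congr 1
    omega
  rw [← h1]
  apply card_le_card_of_injOn (fun p => p.1)
  · rintro ⟨i, i'⟩ hp
    simp only [coe_filter, mem_product, Set.mem_ofPred_eq] at hp
    exact hp.1.1
  · rintro ⟨⟨n, m⟩, ⟨n', m'⟩⟩ hp ⟨⟨k, l⟩, ⟨k', l'⟩⟩ hq heq
    simp only [coe_filter, mem_product, Set.mem_ofPred_eq, pv_eq] at hp hq heq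
    obtain ⟨-, h1, h2⟩ := hp
    obtain ⟨-, h3, h4⟩ := hq
    obtain ⟨h5, h6⟩ := Prod.mk.inj heq
    subst h1 h3 h5 h6
    have : m' = l' := by omega
    rw [this]

lemma sum_r1 (a b x X : ℕ) (M : Finset ℤ) : ∑ D ∈ JJ X, r1 a b x M D ≤ x * M.card ^ 2 := by
  have h1 : ∑ D ∈ JJ X, r1 a b x M D ≤ ((pI x M ×ˢ pI x M).filter (fun p => p.1.1 = p.2.1)).card := by
    have h2 : ∑ D ∈ JJ X, r1 a b x M D = ∑ D ∈ JJ X,
        (((pI x M ×ˢ pI x M).filter (fun p => p.1.1 = p.2.1 ∧ pv a b p.1 - pv a b p.2 ∈ JJ X)).filter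
          (fun p => pv a b p.1 - pv a b p.2 = D)).card := by
      apply sum_congr rfl
      intro D hD
      unfold r1
      congr 1
      ext p
      simp only [mem_filter]
      constructor
      · rintro ⟨h1, h2, h3⟩
        exact ⟨⟨h1, h2, by rw [h3]; exact hD⟩, h3⟩
      · rintro ⟨⟨h1, h2, _⟩, h3⟩
        exact ⟨h1, h2, h3⟩
    rw [h2, ← card_eq_sum_card_fiberwise]
    · apply card_le_card
      intro p hp
      rw [mem_filter] at hp ⊢
      exact ⟨hp.1, hp.2.1⟩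
    · intro p hp
      simp only [coe_filter, Set.mem_ofPred_eq] at hp
      exact hp.2.2
  refine h1.trans ?_
  have h3 : (Ioc x (2 * x) ×ˢ (M ×ˢ M)).card = x * M.card ^ 2 := by
    rw [card_product, card_product, Nat.card_Ioc, sq]
    congr 1
    omega
  rw [← h3]
  apply card_le_card_of_injOn (fun p => (p.1.1, (p.1.2, p.2.2)))
  · rintro ⟨⟨n, m⟩, ⟨n', m'⟩⟩ hp
    simp only [coe_filter, mem_product, Set.mem_ofPred_eq, pI] at hp
    simp only [coe_product, Set.mem_prod, mem_coe]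
    exact ⟨hp.1.1.1, hp.1.1.2, hp.1.2.2⟩
  · rintro ⟨⟨n, m⟩, ⟨n', m'⟩⟩ hp ⟨⟨k, l⟩, ⟨k', l'⟩⟩ hq heq
    simp only [coe_filter, mem_product, Set.mem_ofPred_eq] at hp hq
    simp only [Prod.mk.injEq] at heq
    obtain ⟨-, h1⟩ := hp
    obtain ⟨-, h3⟩ := hq
    obtain ⟨h5, h6, h7⟩ := heq
    subst h1 h3 h5 h6 h7
    rfl

lemma rho_le (a b x X : ℕ) (ha : 1 ≤ a) (hX : (4 * a + 2 * b) * x ^ 2 ≤ X) (u : ℤ) :
    rho a b x u ≤ if u ∈ Icc (-(X : ℤ)) X then u.natAbs.divisors.card else 0 := by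
  have hval : ∀ n ∈ Ioc x (2 * x), 0 ≤ qv a b 0 n ∧ qv a b 0 n ≤ X := by
    intro n hn
    rw [mem_Ioc] at hn
    have h1 : (n : ℤ) ≤ 2 * x := by exact_mod_cast hn.2
    have h2 : (0 : ℤ) ≤ n := by positivity
    have h3 : (0 : ℤ) ≤ a := by positivity
    have h4 : (0 : ℤ) ≤ b := by positivity
    have hx1 : (1 : ℤ) ≤ x := by
      have : 1 ≤ x := by omega
      exact_mod_cast this
    have e2 : (n : ℤ) ^ 2 ≤ 4 * (x : ℤ) ^ 2 := by nlinarith
    have e4 : (b : ℤ) * n ≤ b * (2 * (x : ℤ) ^ 2) := by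
      apply mul_le_mul_of_nonneg_left _ h4
      nlinarith
    have e6 : (a : ℤ) * (n : ℤ) ^ 2 ≤ a * (4 * (x : ℤ) ^ 2) := mul_le_mul_of_nonneg_left e2 h3
    have hX' : (4 * (a : ℤ) + 2 * b) * (x : ℤ) ^ 2 ≤ X := by exact_mod_cast hX
    unfold qv
    constructor
    · positivity
    · nlinarith
  by_cases hu : u ∈ Icc (-(X : ℤ)) X
  · rw [if_pos hu]
    unfold rho
    apply card_le_card_of_injOn (fun p => ((p.1 : ℤ) - p.2).natAbs)
    · rintro ⟨n, m⟩ hp
      simp only [coe_filter, mem_product, Set.mem_ofPred_eq] at hp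
      obtain ⟨-, h1, h2⟩ := hp
      simp only [mem_coe, Nat.mem_divisors]
      have hne : u ≠ 0 := by
        rintro rfl
        apply h1
        rcases lt_trichotomy n m with h3 | h3 | h3
        · have := qv_lt (b := b) (c := 0) ha h3
          omega
        · exact h3
        · have := qv_lt (b := b) (c := 0) ha h3
          omega
      refine ⟨?_, by omega⟩
      rw [← h2, qv_fac]
      exact Int.natAbs_dvd_natAbs.2 (Dvd.intro _ rfl)
    · rintro ⟨n, m⟩ hp ⟨n', m'⟩ hq heq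
      simp only [coe_filter, mem_product, Set.mem_ofPred_eq] at hp hq heq
      obtain ⟨-, h1, h2⟩ := hp
      obtain ⟨-, h3, h4⟩ := hq
      have g1 : n < m → qv a b 0 n < qv a b 0 m := fun h => qv_lt ha h
      have g2 : m < n → qv a b 0 m < qv a b 0 n := fun h => qv_lt ha h
      have g3 : n' < m' → qv a b 0 n' < qv a b 0 m' := fun h => qv_lt ha h
      have g4 : m' < n' → qv a b 0 m' < qv a b 0 n' := fun h => qv_lt ha h
      have d1 : (n : ℤ) - m = n' - m' := by omega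
      obtain ⟨r1, r2⟩ := key_inj (c := 0) ha d1 (h2.trans h4.symm) (by omega)
      rw [r1, r2]
  · rw [if_neg hu]
    unfold rho
    apply le_of_eq
    rw [card_eq_zero, filter_eq_empty_iff]
    rintro ⟨n, m⟩ hp
    simp only [mem_product] at hp
    rintro ⟨-, h2⟩
    simp only at h2
    have v1 := hval n hp.1
    have v2 := hval m hp.2
    apply hu
    rw [mem_Icc]
    omega

lemma r2_le (a b x : ℕ) (M : Finset ℤ) (D : ℤ) :
    r2 a b x M D ≤ ∑ s ∈ M ×ˢ M, rho a b x (D - (s.1 - s.2)) := by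
  unfold r2
  rw [card_eq_sum_card_fiberwise (t := M ×ˢ M) (f := fun p => (p.1.2, p.2.2))]
  · apply sum_le_sum
    rintro ⟨m1, m2⟩ _
    unfold rho
    apply card_le_card_of_injOn (fun p => (p.1.1, p.2.1))
    · rintro ⟨⟨n, m⟩, ⟨n', m'⟩⟩ hp
      simp only [coe_filter, mem_filter, mem_product, Set.mem_ofPred_eq, pI, pv_eq, Prod.mk.injEq] at hp
      simp only [coe_filter, mem_product, Set.mem_ofPred_eq]
      obtain ⟨⟨⟨⟨h1, h2⟩, h3, h4⟩, h5, h6⟩, h7, h8⟩ := hp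
      exact ⟨⟨h1, h3⟩, h5, by omega⟩
    · rintro ⟨⟨n, m⟩, ⟨n', m'⟩⟩ hp ⟨⟨k, l⟩, ⟨k', l'⟩⟩ hq heq
      simp only [coe_filter, mem_filter, mem_product, Set.mem_ofPred_eq, Prod.mk.injEq] at hp hq heq
      obtain ⟨-, h1, h2⟩ := hp
      obtain ⟨-, h3, h4⟩ := hq
      obtain ⟨h5, h6⟩ := heq
      rw [h5, h6, h1, h2, h3, h4]
  · rintro ⟨⟨n, m⟩, ⟨n', m'⟩⟩ hp
    simp only [coe_filter, mem_product, Set.mem_ofPred_eq, pI] at hp
    simp only [coe_product, Set.mem_prod, mem_coe]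
    exact ⟨hp.1.1.2, hp.1.2.2⟩

/-- the sum of the cubes of the divisor function on both sides -/
lemma theta_le (X : ℕ) : ∑ u ∈ Icc (-(X : ℤ)) X, (u.natAbs.divisors.card : ℝ) ^ 3 ≤
    2 * (X * (1 + Real.log X) ^ 8) := by
  have h1 : ∑ u ∈ Icc (-(X : ℤ)) X, (u.natAbs.divisors.card : ℝ) ^ 3 =
      ∑ w ∈ Icc 0 X, ∑ u ∈ (Icc (-(X : ℤ)) X).filter (fun u => u.natAbs = w), (u.natAbs.divisors.card : ℝ) ^ 3 := by
    rw [sum_fiberwise_of_maps_to]
    intro u hu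
    rw [mem_Icc] at hu ⊢
    omega
  have h2 : ∀ w ∈ Icc 0 X, ∑ u ∈ (Icc (-(X : ℤ)) X).filter (fun u => u.natAbs = w),
      (u.natAbs.divisors.card : ℝ) ^ 3 ≤ 2 * (w.divisors.card : ℝ) ^ 3 := by
    intro w _
    have h3 : ∑ u ∈ (Icc (-(X : ℤ)) X).filter (fun u => u.natAbs = w), (u.natAbs.divisors.card : ℝ) ^ 3 =
        ((Icc (-(X : ℤ)) X).filter (fun u => u.natAbs = w)).card * (w.divisors.card : ℝ) ^ 3 := by
      rw [← nsmul_eq_mul, ← sum_const]
      apply sum_congr rfl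
      intro u hu
      rw [mem_filter] at hu
      rw [hu.2]
    rw [h3]
    apply mul_le_mul_of_nonneg_right _ (by positivity)
    have h4 : ((Icc (-(X : ℤ)) X).filter (fun u => u.natAbs = w)) ⊆ {(w : ℤ), -(w : ℤ)} := by
      intro u hu
      rw [mem_filter] at hu
      rw [mem_insert, mem_singleton]
      omega
    have h5 := (card_le_card h4).trans card_le_two
    exact_mod_cast h5
  rw [h1]
  refine (sum_le_sum h2).trans ?_
  rw [← mul_sum]
  apply mul_le_mul_of_nonneg_left _ (by norm_num)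
  have h6 : ∑ w ∈ Icc 0 X, (w.divisors.card : ℝ) ^ 3 = ∑ w ∈ Icc 1 X, (w.divisors.card : ℝ) ^ 3 := by
    symm
    apply sum_subset (Icc_subset_Icc (by omega) le_rfl)
    intro w hw hw'
    rw [mem_Icc] at hw hw'
    have : w = 0 := by omega
    rw [this]
    simp
  rw [h6]
  have h3 := Pool.Agent.H398R2.BV.sum_card_pow_div 3 X
  norm_num at h3
  calc ∑ h ∈ Icc 1 X, (h.divisors.card : ℝ) ^ 3 ≤ ∑ h ∈ Icc 1 X, X * ((h.divisors.card : ℝ) ^ 3 / h) := by
        apply sum_le_sum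
        intro h hh
        rw [mem_Icc] at hh
        have h0 : (0 : ℝ) < h := by exact_mod_cast hh.1
        have h4 : (h : ℝ) ≤ X := by exact_mod_cast hh.2
        rw [← mul_div_assoc, le_div_iff₀ h0, mul_comm]
        exact mul_le_mul_of_nonneg_right h4 (by positivity)
    _ = X * ∑ h ∈ Icc 1 X, (h.divisors.card : ℝ) ^ 3 / h := by rw [mul_sum]
    _ ≤ X * (1 + Real.log X) ^ 8 := mul_le_mul_of_nonneg_left h3 (by positivity)

lemma sq_mul_le (a b : ℝ) (ha : 0 ≤ a) (hb : 0 ≤ b) : a ^ 2 * b ≤ a ^ 3 + b ^ 3 := by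
  rcases le_total a b with h | h
  · have h1 : a ^ 2 * b ≤ b ^ 2 * b := mul_le_mul_of_nonneg_right (pow_le_pow_left₀ ha h 2) hb
    have h2 : 0 ≤ a ^ 3 := by positivity
    nlinarith
  · have h1 : a ^ 2 * b ≤ a ^ 2 * a := mul_le_mul_of_nonneg_left h (by positivity)
    have h2 : 0 ≤ b ^ 3 := by positivity
    nlinarith

/-- the energy of the family -/
theorem energy_pairs (a b x X Q : ℕ) (ha : 1 ≤ a) (M : Finset ℤ) (hX : (4 * a + 2 * b) * x ^ 2 ≤ X)
    (hI : ∀ i ∈ pI x M, 0 < pv a b i ∧ pv a b i ≤ X) (t : ℝ) (ht : 0 ≤ t)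
    (hτ : ∀ n : ℕ, 1 ≤ n → n ≤ X → (n.divisors.card : ℝ) ≤ t) :
    ∑ q ∈ Icc 1 Q, (energy (pI x M) (pn a b) q : ℝ) ≤
      2 * (t * ((x : ℝ) ^ 2 * (M.card : ℝ) ^ 3)) + 8 * ((M.card : ℝ) ^ 4 * (X * (1 + Real.log X) ^ 8)) := by
  refine (sum_energy_rr a b x X Q M hI).trans ?_
  set Θ := ∑ u ∈ Icc (-(X : ℤ)) X, (u.natAbs.divisors.card : ℝ) ^ 3 with hΘ
  have hΘle := theta_le X
  have hJsub : JJ X ⊆ Icc (-(X : ℤ)) X := by
    unfold JJ
    exact erase_subset _ _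
  have h1 : ∀ D ∈ JJ X, (rr a b x M D : ℝ) ^ 2 * (D.natAbs.divisors.card : ℝ) ≤
      2 * ((r1 a b x M D : ℝ) ^ 2 * (D.natAbs.divisors.card : ℝ)) +
      2 * ((r2 a b x M D : ℝ) ^ 2 * (D.natAbs.divisors.card : ℝ)) := by
    intro D _
    have e1 : (rr a b x M D : ℝ) ≤ r1 a b x M D + r2 a b x M D := by exact_mod_cast rr_le a b x M D
    have e2 : (rr a b x M D : ℝ) ^ 2 ≤ 2 * (r1 a b x M D : ℝ) ^ 2 + 2 * (r2 a b x M D : ℝ) ^ 2 := by
      have e3 : (rr a b x M D : ℝ) ^ 2 ≤ (r1 a b x M D + r2 a b x M D : ℝ) ^ 2 :=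
        pow_le_pow_left₀ (by positivity) e1 2
      nlinarith [sq_nonneg ((r1 a b x M D : ℝ) - r2 a b x M D)]
    have e4 : (0 : ℝ) ≤ D.natAbs.divisors.card := by positivity
    nlinarith
  refine (sum_le_sum h1).trans ?_
  rw [sum_add_distrib, ← mul_sum, ← mul_sum]
  have h2 : ∑ D ∈ JJ X, (r1 a b x M D : ℝ) ^ 2 * (D.natAbs.divisors.card : ℝ) ≤
      t * ((x : ℝ) ^ 2 * (M.card : ℝ) ^ 3) := by
    have e1 : ∀ D ∈ JJ X, (r1 a b x M D : ℝ) ^ 2 * (D.natAbs.divisors.card : ℝ) ≤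
        t * (x * M.card) * r1 a b x M D := by
      intro D hD
      have e2 : (r1 a b x M D : ℝ) ≤ x * M.card := by exact_mod_cast r1_le a b x M D
      have e3 : (D.natAbs.divisors.card : ℝ) ≤ t := by
        unfold JJ at hD
        rw [mem_erase, mem_Icc] at hD
        exact hτ _ (by omega) (by omega)
      have e4 : (0 : ℝ) ≤ r1 a b x M D := by positivity
      calc (r1 a b x M D : ℝ) ^ 2 * (D.natAbs.divisors.card : ℝ) =
          (r1 a b x M D * r1 a b x M D) * (D.natAbs.divisors.card : ℝ) := by ring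
        _ ≤ (x * M.card * r1 a b x M D) * t := by gcongr
        _ = _ := by ring
    refine (sum_le_sum e1).trans ?_
    rw [← mul_sum]
    have e5 : ∑ D ∈ JJ X, (r1 a b x M D : ℝ) ≤ x * (M.card : ℝ) ^ 2 := by exact_mod_cast sum_r1 a b x X M
    calc t * (x * M.card) * ∑ D ∈ JJ X, (r1 a b x M D : ℝ) ≤ t * (x * M.card) * (x * (M.card : ℝ) ^ 2) :=
          mul_le_mul_of_nonneg_left e5 (by positivity)
      _ = _ := by ring
  have h3 : ∑ D ∈ JJ X, (r2 a b x M D : ℝ) ^ 2 * (D.natAbs.divisors.card : ℝ) ≤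
      (M.card : ℝ) ^ 4 * (2 * Θ) := by
    set τ' : ℤ → ℝ := fun u => if u ∈ Icc (-(X : ℤ)) X then (u.natAbs.divisors.card : ℝ) else 0 with hτ'
    have hτ'0 : ∀ u, 0 ≤ τ' u := by
      intro u
      rw [hτ']
      simp only
      split_ifs <;> positivity
    have e1 : ∀ D ∈ JJ X, (r2 a b x M D : ℝ) ^ 2 * (D.natAbs.divisors.card : ℝ) ≤
        (M.card : ℝ) ^ 2 * ∑ s ∈ M ×ˢ M, (τ' (D - (s.1 - s.2)) ^ 3 + (D.natAbs.divisors.card : ℝ) ^ 3) := by
      intro D _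
      have e2 : (r2 a b x M D : ℝ) ≤ ∑ s ∈ M ×ˢ M, τ' (D - (s.1 - s.2)) := by
        have e3 : (r2 a b x M D : ℝ) ≤ ∑ s ∈ M ×ˢ M, (rho a b x (D - (s.1 - s.2)) : ℝ) := by
          exact_mod_cast r2_le a b x M D
        refine e3.trans (sum_le_sum fun s _ => ?_)
        have e4 := rho_le a b x X ha hX (D - (s.1 - s.2))
        rw [hτ']
        simp only
        split_ifs at e4 ⊢
        · exact_mod_cast e4
        · exact_mod_cast e4
      have e5 : (r2 a b x M D : ℝ) ^ 2 ≤ (M.card : ℝ) ^ 2 * ∑ s ∈ M ×ˢ M, τ' (D - (s.1 - s.2)) ^ 2 := by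
        calc (r2 a b x M D : ℝ) ^ 2 ≤ (∑ s ∈ M ×ˢ M, τ' (D - (s.1 - s.2))) ^ 2 :=
              pow_le_pow_left₀ (by positivity) e2 2
          _ ≤ ((M ×ˢ M).card : ℝ) * ∑ s ∈ M ×ˢ M, τ' (D - (s.1 - s.2)) ^ 2 := sq_sum_le_card_mul_sum_sq
          _ = _ := by rw [card_product]; push_cast; ring
      calc (r2 a b x M D : ℝ) ^ 2 * (D.natAbs.divisors.card : ℝ) ≤
          ((M.card : ℝ) ^ 2 * ∑ s ∈ M ×ˢ M, τ' (D - (s.1 - s.2)) ^ 2) * (D.natAbs.divisors.card : ℝ) :=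
            mul_le_mul_of_nonneg_right e5 (by positivity)
        _ = (M.card : ℝ) ^ 2 * ∑ s ∈ M ×ˢ M, (τ' (D - (s.1 - s.2)) ^ 2 * (D.natAbs.divisors.card : ℝ)) := by
            rw [mul_assoc, sum_mul]
        _ ≤ _ := by
            apply mul_le_mul_of_nonneg_left _ (by positivity)
            apply sum_le_sum
            intro s _
            exact sq_mul_le _ _ (hτ'0 _) (by positivity)
    refine (sum_le_sum e1).trans ?_
    rw [← mul_sum, sum_comm]
    have e6 : ∀ s ∈ M ×ˢ M, ∑ D ∈ JJ X, (τ' (D - (s.1 - s.2)) ^ 3 + (D.natAbs.divisors.card : ℝ) ^ 3) ≤ 2 * Θ := by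
      intro s _
      rw [sum_add_distrib]
      have f1 : ∑ D ∈ JJ X, (D.natAbs.divisors.card : ℝ) ^ 3 ≤ Θ :=
        sum_le_sum_of_subset_of_nonneg hJsub (fun _ _ _ => by positivity)
      have f2 : ∑ D ∈ JJ X, τ' (D - (s.1 - s.2)) ^ 3 ≤ Θ := by
        have f3 : ∑ D ∈ JJ X, τ' (D - (s.1 - s.2)) ^ 3 =
            ∑ D ∈ (JJ X).filter (fun D => D - (s.1 - s.2) ∈ Icc (-(X : ℤ)) X),
              ((D - (s.1 - s.2)).natAbs.divisors.card : ℝ) ^ 3 := by
          rw [sum_filter]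
          apply sum_congr rfl
          intro D _
          rw [hτ']
          simp only
          split_ifs <;> simp
        rw [f3]
        have f4 : ∑ D ∈ (JJ X).filter (fun D => D - (s.1 - s.2) ∈ Icc (-(X : ℤ)) X),
            ((D - (s.1 - s.2)).natAbs.divisors.card : ℝ) ^ 3 =
            ∑ u ∈ ((JJ X).filter (fun D => D - (s.1 - s.2) ∈ Icc (-(X : ℤ)) X)).image (fun D => D - (s.1 - s.2)),
              (u.natAbs.divisors.card : ℝ) ^ 3 := by
          rw [sum_image]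
          intro D _ D' _ h
          simp only at h
          omega
        rw [f4]
        apply sum_le_sum_of_subset_of_nonneg
        · intro u hu
          rw [mem_image] at hu
          obtain ⟨D, hD, rfl⟩ := hu
          exact (mem_filter.1 hD).2
        · intro _ _ _; positivity
      linarith
    calc (M.card : ℝ) ^ 2 * ∑ s ∈ M ×ˢ M, ∑ D ∈ JJ X,
          (τ' (D - (s.1 - s.2)) ^ 3 + (D.natAbs.divisors.card : ℝ) ^ 3) ≤
        (M.card : ℝ) ^ 2 * ∑ _s ∈ M ×ˢ M, 2 * Θ :=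
          mul_le_mul_of_nonneg_left (sum_le_sum e6) (by positivity)
      _ = _ := by
          rw [sum_const, card_product, nsmul_eq_mul]
          push_cast
          ring
  have h4 : (M.card : ℝ) ^ 4 * (2 * Θ) ≤ (M.card : ℝ) ^ 4 * (2 * (2 * (X * (1 + Real.log X) ^ 8))) := by
    apply mul_le_mul_of_nonneg_left _ (by positivity)
    linarith
  linarith

/-- the coincidences of the family -/
theorem coin_pairs (a b x X : ℕ) (ha : 1 ≤ a) (M : Finset ℤ) (hX : (4 * a + 2 * b) * x ^ 2 ≤ X)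
    (hI : ∀ i ∈ pI x M, 0 < pv a b i ∧ pv a b i ≤ X) (t : ℝ) (ht : 0 ≤ t)
    (hτ : ∀ n : ℕ, 1 ≤ n → n ≤ X → (n.divisors.card : ℝ) ≤ t) :
    (coin (pI x M) (pn a b) : ℝ) ≤ x * M.card + (M.card : ℝ) ^ 2 * t := by
  have h1 : coin (pI x M) (pn a b) ≤ rr a b x M 0 := by
    unfold coin rr
    apply card_le_card
    rintro ⟨i, i'⟩ hp
    simp only [mem_filter, mem_product] at hp ⊢
    refine ⟨hp.1, ?_⟩
    have p1 := (hI i hp.1.1).1
    have p2 := (hI i' hp.1.2).1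
    have h2 := hp.2
    unfold pn at h2
    omega
  have h2 : (coin (pI x M) (pn a b) : ℝ) ≤ r1 a b x M 0 + r2 a b x M 0 := by
    exact_mod_cast h1.trans (rr_le a b x M 0)
  have h3 : (r1 a b x M 0 : ℝ) ≤ x * M.card := by exact_mod_cast r1_le a b x M 0
  have h4 : (r2 a b x M 0 : ℝ) ≤ (M.card : ℝ) ^ 2 * t := by
    have e3 : (r2 a b x M 0 : ℝ) ≤ ∑ s ∈ M ×ˢ M, (rho a b x (0 - (s.1 - s.2)) : ℝ) := by
      exact_mod_cast r2_le a b x M 0
    refine e3.trans ?_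
    have e4 : ∀ s ∈ M ×ˢ M, (rho a b x (0 - (s.1 - s.2)) : ℝ) ≤ t := by
      intro s _
      have e5 := rho_le a b x X ha hX (0 - (s.1 - s.2))
      split_ifs at e5 with hmem
      · rcases Nat.eq_zero_or_pos (0 - (s.1 - s.2)).natAbs with h0 | h0
        · rw [h0, Nat.divisors_zero, card_empty] at e5
          have : rho a b x (0 - (s.1 - s.2)) = 0 := by omega
          rw [this]
          exact_mod_cast ht
        · rw [mem_Icc] at hmem
          have e6 := hτ _ h0 (by omega)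
          have e7 : (rho a b x (0 - (s.1 - s.2)) : ℝ) ≤ ((0 - (s.1 - s.2)).natAbs.divisors.card : ℝ) := by
            exact_mod_cast e5
          linarith
      · have : rho a b x (0 - (s.1 - s.2)) = 0 := by omega
        rw [this]
        exact_mod_cast ht
    refine (sum_le_sum e4).trans (le_of_eq ?_)
    rw [sum_const, card_product, nsmul_eq_mul]
    push_cast
    ring
  linarith

end Pool.Agent.V7H49.DQ
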