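import Mathlib
import Pool.Agent.V7H49.DQ6
import Pool.Agent.V7H49.DQ8
import Pool.Agent.H373R2.T4.DivB

/-! Almost all the numbers `a n^2 + b n + m` with `m` in an arbitrary set. -/

set_option autoImplicit false

namespace Pool.Agent.V7H49.DQ
open Finset Filter Topology
open Pool.Agent.R311.DEH

lemma rpow_ev (r : ℝ) (hr : 0 < r) (V : ℝ) : ∃ x0 : ℕ, ∀ x : ℕ, x0 ≤ x → V ≤ (x : ℝ) ^ r := by
  obtain ⟨x0, h⟩ := log_pow_ev 0 r hr V
  refine ⟨x0, fun x hx => ?_⟩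
  have := h x hx
  rwa [pow_zero, mul_one] at this

lemma card_pI (x : ℕ) (M : Finset ℤ) : (pI x M).card = x * M.card := by
  unfold pI
  rw [card_product, Nat.card_Ioc]
  congr 1
  omega

theorem base_pairs (a b K A B : ℕ) (ha : 1 ≤ a) (δ θ : ℝ) (hδ : 0 < δ) (hδ2 : δ < 1 / 2) (hθ : 0 < θ)
    (hθδ : θ < 1 / 2 + δ) : ∃ x0 : ℕ, ∀ x : ℕ, x0 ≤ x → ∀ M : Finset ℤ,
    (∀ m ∈ M, -(3 * (x : ℤ) ^ 2) ≤ 4 * m ∧ m ≤ K * (x : ℤ) ^ 2) → (x : ℝ) ^ (2 * δ) ≤ M.card →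
    (M.card : ℝ) ≤ 3 * (x : ℝ) ^ (2 * δ) → ∀ g : ℕ → ℝ, (g = g1 ∨ g = g2) →
    (((pI x M).filter (fun i => ((pn a b i : ℕ) : ℝ) / Real.log (pn a b i : ℕ) ^ A <
      D g (pn a b i) (((pn a b i : ℕ) : ℝ) ^ θ))).card : ℝ) ≤ x * M.card / Real.log x ^ B := by
  set Mo := 4 * a + 2 * b + K with hMo
  have hM4 : 4 ≤ Mo := by omega
  have hMr : (4 : ℝ) ≤ Mo := by exact_mod_cast hM4
  have hθ1 : θ < 1 := by linarith
  obtain ⟨C', X0, hcrit⟩ := criterion (1 / 2) (by norm_num) (by norm_num) (A + 1) B 10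
  obtain ⟨x1, h1⟩ := log_ev (2560 * (Mo : ℝ) ^ 2 + 4)
  set ε := min (δ / 2) ((1 - 2 * δ) / 4) with hε
  have hε0 : 0 < ε := lt_min (by linarith) (by linarith)
  have hε1 : ε ≤ δ / 2 := min_le_left _ _
  have hε2 : ε ≤ (1 - 2 * δ) / 4 := min_le_right _ _
  obtain ⟨Cd, hCd1, hCd⟩ := Pool.Agent.H373R2.T4.DivB.div_bound hε0
  obtain ⟨x2, h2⟩ := rpow_ev δ hδ (Cd * (Mo : ℝ) ^ ε)
  obtain ⟨x3, h3⟩ := rpow_ev ((1 - 2 * δ) / 2) (by linarith) (3 * (Cd * (Mo : ℝ) ^ ε))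
  obtain ⟨x4, h4⟩ := log_pow_ev C' (1 + 2 * δ - 2 * θ) (by linarith) (2 * (Mo * 3 ^ C'))
  have hev : ∀ᶠ y : ℝ in atTop, 1 ≤ Real.exp ((1 - θ) * y) * Real.exp (-y ^ (1 / 2 : ℝ)) := by
    filter_upwards [eventually_ge_atTop ((1 / (1 - θ)) ^ 2)] with y hy
    rw [← Real.exp_add]
    apply Real.one_le_exp
    rw [← Real.sqrt_eq_rpow]
    have hθ' : 0 < 1 - θ := by linarith
    have k1 : 1 / (1 - θ) ≤ Real.sqrt y := Real.le_sqrt_of_sq_le hy
    have k2 : 0 ≤ y := le_trans (by positivity) hy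
    have k3 : Real.sqrt y * Real.sqrt y = y := Real.mul_self_sqrt k2
    have k4 : 1 ≤ (1 - θ) * Real.sqrt y := by
      rw [div_le_iff₀ hθ'] at k1
      linarith
    have k5 : Real.sqrt y ≤ (1 - θ) * y := by
      calc Real.sqrt y = 1 * Real.sqrt y := (one_mul _).symm
        _ ≤ ((1 - θ) * Real.sqrt y) * Real.sqrt y := mul_le_mul_of_nonneg_right k4 (Real.sqrt_nonneg _)
        _ = (1 - θ) * (Real.sqrt y * Real.sqrt y) := by ring
        _ = _ := by rw [k3]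
    linarith
  obtain ⟨x5, h5⟩ := eventually_atTop.1 (tlog.eventually hev)
  refine ⟨X0 + x1 + x2 + x3 + x4 + x5 + Mo + 4, fun x hx M hM hMc1 hMc2 g hg => ?_⟩
  have hx4 : 4 ≤ x := by omega
  have hxM : Mo ≤ x := by omega
  have hxr : (4 : ℝ) ≤ x := by exact_mod_cast hx4
  have hx0 : (0 : ℝ) < x := by linarith
  have hxMr : (Mo : ℝ) ≤ x := by exact_mod_cast hxM
  set X := Mo * x ^ 2 with hXdef
  have hxX : x ≤ X := by
    rw [hXdef]
    nlinarith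
  have hXr : (X : ℝ) = Mo * (x : ℝ) ^ 2 := by rw [hXdef]; push_cast; ring
  have hXp : (0 : ℝ) < X := by rw [hXr]; positivity
  have k1 := h1 x (by omega)
  have k2 := h2 x (by omega)
  have k3 := h3 x (by omega)
  have k4 := h4 x (by omega)
  have k5 := h5 X (by omega)
  set lx := Real.log x with hlx
  set LX := Real.log X with hLX
  have hM20 : 0 ≤ 2560 * (Mo : ℝ) ^ 2 := by positivity
  have hlx4 : 4 ≤ lx := by linarith
  have hLXge : lx ≤ LX := Real.log_le_log (by linarith) (by exact_mod_cast hxX)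
  have hLXle : LX ≤ 3 * lx := by
    rw [hLX, hXr, Real.log_mul (by positivity) (by positivity), Real.log_pow]
    have : Real.log Mo ≤ Real.log x := Real.log_le_log (by linarith) hxMr
    push_cast
    linarith
  have hLX0 : 0 < LX := by linarith
  set mc := (M.card : ℝ) with hmc
  have hmc0 : 0 < mc := lt_of_lt_of_le (Real.rpow_pos_of_pos hx0 _) hMc1
  -- the bounds for the values
  have hb : ∀ i ∈ pI x M, (x : ℤ) ^ 2 ≤ 4 * pv a b i ∧ 0 < pv a b i ∧ pv a b i ≤ (X : ℤ) := by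
    rintro ⟨n, m⟩ hi
    unfold pI at hi
    rw [mem_product] at hi
    obtain ⟨e1, e2⟩ := hM m hi.2
    exact qv_bounds ha hMo hi.1 e1 e2
  have hI : ∀ i ∈ pI x M, pn a b i ∈ Icc 1 X := by
    intro i hi
    have := hb i hi
    rw [mem_Icc]
    unfold pn
    omega
  have hXle : (4 * a + 2 * b) * x ^ 2 ≤ X := by
    rw [hXdef]
    exact Nat.mul_le_mul_right _ (by omega)
  -- the divisor bound
  set t := Cd * (X : ℝ) ^ ε with ht
  have ht0 : 0 ≤ t := by positivity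
  have hτ : ∀ n : ℕ, 1 ≤ n → n ≤ X → (n.divisors.card : ℝ) ≤ t := by
    intro n hn1 hnX
    refine (hCd n (by omega)).trans ?_
    apply mul_le_mul_of_nonneg_left _ (by linarith)
    exact Real.rpow_le_rpow (by positivity) (by exact_mod_cast hnX) hε0.le
  have hXε : (X : ℝ) ^ ε = (Mo : ℝ) ^ ε * (x : ℝ) ^ (2 * ε) := by
    rw [hXr, Real.mul_rpow (by positivity) (by positivity)]
    congr 1
    rw [← Real.rpow_natCast, ← Real.rpow_mul (by linarith)]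
    norm_num
  have ht1 : t ≤ (x : ℝ) ^ (2 * δ) := by
    have e1 : (x : ℝ) ^ (2 * ε) ≤ (x : ℝ) ^ δ :=
      Real.rpow_le_rpow_of_exponent_le (by linarith) (by linarith)
    calc t = (Cd * (Mo : ℝ) ^ ε) * (x : ℝ) ^ (2 * ε) := by rw [ht, hXε]; ring
      _ ≤ (x : ℝ) ^ δ * (x : ℝ) ^ δ := mul_le_mul k2 e1 (by positivity) (by positivity)
      _ = (x : ℝ) ^ (2 * δ) := by rw [← Real.rpow_add hx0]; congr 1; ring
  have ht2 : mc * t ≤ x := by
    have e1 : (x : ℝ) ^ (2 * δ + 2 * ε) ≤ (x : ℝ) ^ ((1 + 2 * δ) / 2) :=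
      Real.rpow_le_rpow_of_exponent_le (by linarith) (by linarith)
    calc mc * t ≤ (3 * (x : ℝ) ^ (2 * δ)) * ((Cd * (Mo : ℝ) ^ ε) * (x : ℝ) ^ (2 * ε)) := by
          apply mul_le_mul hMc2 (le_of_eq _) ht0 (by positivity)
          rw [ht, hXε]; ring
      _ = (3 * (Cd * (Mo : ℝ) ^ ε)) * (x : ℝ) ^ (2 * δ + 2 * ε) := by rw [Real.rpow_add hx0]; ring
      _ ≤ (x : ℝ) ^ ((1 - 2 * δ) / 2) * (x : ℝ) ^ ((1 + 2 * δ) / 2) :=
          mul_le_mul k3 e1 (by positivity) (by positivity)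
      _ = x := by
          rw [← Real.rpow_add hx0]
          have : (1 - 2 * δ) / 2 + (1 + 2 * δ) / 2 = 1 := by ring
          rw [this, Real.rpow_one]
  have hcoin : (coin (pI x M) (pn a b) : ℝ) ≤ 2 * (x * mc) := by
    refine (coin_pairs a b x X ha M hXle (fun i hi => (hb i hi).2) t ht0 hτ).trans ?_
    have : mc ^ 2 * t ≤ x * mc := by
      calc mc ^ 2 * t = mc * (mc * t) := by ring
        _ ≤ mc * x := mul_le_mul_of_nonneg_left ht2 hmc0.le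
        _ = _ := by ring
    rw [← hmc]
    linarith
  -- the level
  set Q := ⌊(X : ℝ) ^ θ⌋₊ with hQ
  have hQle : (Q : ℝ) ≤ (X : ℝ) ^ θ := Nat.floor_le (by positivity)
  have hQX : (Q : ℝ) ≤ X * Real.exp (-LX ^ (1 / 2 : ℝ)) := by
    refine hQle.trans ?_
    have e1 : (X : ℝ) = (X : ℝ) ^ θ * Real.exp ((1 - θ) * LX) := by
      have : Real.exp ((1 - θ) * LX) = (X : ℝ) ^ (1 - θ) := by
        rw [Real.rpow_def_of_pos hXp, mul_comm]
      rw [this, ← Real.rpow_add hXp]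
      have : θ + (1 - θ) = 1 := by ring
      rw [this, Real.rpow_one]
    calc (X : ℝ) ^ θ = (X : ℝ) ^ θ * 1 := (mul_one _).symm
      _ ≤ (X : ℝ) ^ θ * (Real.exp ((1 - θ) * LX) * Real.exp (-LX ^ (1 / 2 : ℝ))) :=
          mul_le_mul_of_nonneg_left k5 (by positivity)
      _ = _ := by rw [← mul_assoc, ← e1]
  have hXθ : (X : ℝ) ^ θ ≤ Mo * (x : ℝ) ^ (2 * θ) := by
    rw [hXr, Real.mul_rpow (by positivity) (by positivity)]
    have e1 : ((x : ℝ) ^ 2) ^ θ = (x : ℝ) ^ (2 * θ) := by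
      rw [← Real.rpow_natCast, ← Real.rpow_mul (by linarith)]
      norm_num
    rw [e1]
    apply mul_le_mul_of_nonneg_right _ (by positivity)
    calc (Mo : ℝ) ^ θ ≤ (Mo : ℝ) ^ (1 : ℝ) := Real.rpow_le_rpow_of_exponent_le (by linarith) hθ1.le
      _ = Mo := Real.rpow_one _
  have hlev : 2 * ((X : ℝ) ^ θ * LX ^ C') ≤ x * mc := by
    have e2 : LX ^ C' ≤ 3 ^ C' * lx ^ C' := by
      rw [← mul_pow]
      exact pow_le_pow_left₀ hLX0.le hLXle _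
    calc 2 * ((X : ℝ) ^ θ * LX ^ C') ≤ 2 * ((Mo * (x : ℝ) ^ (2 * θ)) * (3 ^ C' * lx ^ C')) := by
          apply mul_le_mul_of_nonneg_left _ (by norm_num)
          exact mul_le_mul hXθ e2 (by positivity) (by positivity)
      _ = (2 * (Mo * 3 ^ C') * lx ^ C') * (x : ℝ) ^ (2 * θ) := by ring
      _ ≤ (x : ℝ) ^ (1 + 2 * δ - 2 * θ) * (x : ℝ) ^ (2 * θ) := mul_le_mul_of_nonneg_right k4 (by positivity)
      _ = x * (x : ℝ) ^ (2 * δ) := by
          rw [← Real.rpow_add hx0]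
          have : 1 + 2 * δ - 2 * θ + 2 * θ = 1 + 2 * δ := by ring
          rw [this, Real.rpow_add hx0, Real.rpow_one]
      _ ≤ x * mc := mul_le_mul_of_nonneg_left hMc1 hx0.le
  have hcardI : ((pI x M).card : ℝ) = x * mc := by
    rw [card_pI]
    push_cast
    ring
  have hcard : (Q : ℝ) * LX ^ C' * coin (pI x M) (pn a b) ≤ ((pI x M).card : ℝ) ^ 2 := by
    rw [hcardI]
    calc (Q : ℝ) * LX ^ C' * coin (pI x M) (pn a b) ≤ ((X : ℝ) ^ θ * LX ^ C') * (2 * (x * mc)) := by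
          apply mul_le_mul _ hcoin (by positivity) (by positivity)
          exact mul_le_mul_of_nonneg_right hQle (by positivity)
      _ = (2 * ((X : ℝ) ^ θ * LX ^ C')) * (x * mc) := by ring
      _ ≤ (x * mc) * (x * mc) := mul_le_mul_of_nonneg_right hlev (by positivity)
      _ = _ := by ring
  have hen : (∑ q ∈ Icc 1 Q, (energy (pI x M) (pn a b) q : ℝ)) ≤
      LX ^ 10 * ((pI x M).card : ℝ) ^ 4 / X := by
    refine (energy_pairs a b x X Q ha M hXle (fun i hi => (hb i hi).2) t ht0 hτ).trans ?_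
    rw [← hLX, ← hmc, le_div_iff₀ hXp, hcardI, hXr]
    have e1 : (1 + LX) ^ 8 ≤ 256 * LX ^ 8 := by
      calc (1 + LX) ^ 8 ≤ (2 * LX) ^ 8 := pow_le_pow_left₀ (by linarith) (by linarith) _
        _ = _ := by rw [mul_pow]; norm_num
    have e2 : 2560 * (Mo : ℝ) ^ 2 ≤ LX ^ 2 := by nlinarith
    have e3 : t * ((x : ℝ) ^ 2 * mc ^ 3) ≤ mc * ((x : ℝ) ^ 2 * mc ^ 3) :=
      mul_le_mul_of_nonneg_right (ht1.trans hMc1) (by positivity)
    have e4 : 1 ≤ LX ^ 8 := one_le_pow₀ (by linarith)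
    have e5 : (x : ℝ) ^ 2 ≤ Mo * (x : ℝ) ^ 2 := by nlinarith [sq_nonneg (x : ℝ)]
    calc (2 * (t * ((x : ℝ) ^ 2 * mc ^ 3)) + 8 * (mc ^ 4 * ((Mo * (x : ℝ) ^ 2) * (1 + LX) ^ 8))) *
          (Mo * (x : ℝ) ^ 2) ≤
        (2 * (mc * ((x : ℝ) ^ 2 * mc ^ 3)) + 8 * (mc ^ 4 * ((Mo * (x : ℝ) ^ 2) * (256 * LX ^ 8)))) *
          (Mo * (x : ℝ) ^ 2) := by gcongr
      _ = (2 * ((x : ℝ) ^ 2 * 1) + 2048 * ((Mo * (x : ℝ) ^ 2) * LX ^ 8)) * mc ^ 4 * (Mo * (x : ℝ) ^ 2) := by ring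
      _ ≤ (2 * ((Mo * (x : ℝ) ^ 2) * LX ^ 8) + 2048 * ((Mo * (x : ℝ) ^ 2) * LX ^ 8)) * mc ^ 4 *
          (Mo * (x : ℝ) ^ 2) := by gcongr
      _ = (2050 * (Mo : ℝ) ^ 2 * LX ^ 8) * (mc ^ 4 * (x : ℝ) ^ 4) := by ring
      _ ≤ (LX ^ 2 * LX ^ 8) * (mc ^ 4 * (x : ℝ) ^ 4) := by
          apply mul_le_mul_of_nonneg_right _ (by positivity)
          apply mul_le_mul_of_nonneg_right _ (by positivity)
          have : 0 ≤ (Mo : ℝ) ^ 2 := by positivity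
          linarith
      _ = _ := by ring
  have hmain := hcrit X (by omega) Q hQX (ℕ × ℤ) (pI x M) (pn a b) hI hcard hen g hg
  rw [hcardI] at hmain
  have hfin : x * mc / LX ^ B ≤ x * mc / lx ^ B := by
    apply div_le_div_of_nonneg_left (by positivity) (by positivity)
    exact pow_le_pow_left₀ (by linarith) hLXge _
  refine le_trans ?_ (hmain.trans hfin)
  have hle : ((pI x M).filter (fun i => ((pn a b i : ℕ) : ℝ) / Real.log (pn a b i : ℕ) ^ A <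
      D g (pn a b i) (((pn a b i : ℕ) : ℝ) ^ θ))).card ≤
      ((pI x M).filter (fun i => (X : ℝ) / LX ^ (A + 1) < D g (pn a b i) Q)).card := by
    apply card_le_card
    intro i hi
    rw [mem_filter] at hi ⊢
    obtain ⟨hi1, hi2⟩ := hi
    refine ⟨hi1, ?_⟩
    have hbn := hb i hi1
    have hcast : ((pn a b i : ℕ) : ℤ) = pv a b i := by unfold pn; omega
    set N := pn a b i with hN
    have hNX : (N : ℝ) ≤ X := by
      have : N ≤ X := by omega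
      exact_mod_cast this
    have hNx : (x : ℝ) ^ 2 ≤ 4 * (N : ℝ) := by
      have : (x : ℤ) ^ 2 ≤ 4 * (N : ℤ) := by rw [hcast]; exact hbn.1
      exact_mod_cast this
    have hN0 : (0 : ℝ) < N := by nlinarith
    have hNge : (x : ℝ) ≤ N := by nlinarith
    have hlN1 : lx ≤ Real.log N := Real.log_le_log (by linarith) hNge
    have hlN2 : Real.log N ≤ LX := Real.log_le_log hN0 hNX
    have hlN0 : 0 < Real.log N := by linarith
    have t1 : (X : ℝ) / LX ^ (A + 1) ≤ (N : ℝ) / Real.log N ^ A := by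
      rw [div_le_div_iff₀ (by positivity) (by positivity), hXr]
      have e1 : Real.log N ^ A ≤ LX ^ A := pow_le_pow_left₀ hlN0.le hlN2 _
      have e2 : Mo * (x : ℝ) ^ 2 ≤ (4 * Mo) * (N : ℝ) := by nlinarith
      have e3 : 4 * (Mo : ℝ) ≤ LX := by nlinarith
      calc Mo * (x : ℝ) ^ 2 * Real.log N ^ A ≤ ((4 * Mo) * (N : ℝ)) * LX ^ A :=
            mul_le_mul e2 e1 (by positivity) (by positivity)
        _ ≤ (LX * (N : ℝ)) * LX ^ A := by gcongr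
        _ = _ := by ring
    refine lt_of_le_of_lt t1 (hi2.trans_le ?_)
    refine (D_mono g N (Real.rpow_le_rpow hN0.le hNX hθ.le)).trans (le_of_eq ?_)
    unfold D
    rw [Nat.floor_natCast]
  exact_mod_cast hle

theorem pairs_aux (a b K A B : ℕ) (ha : 1 ≤ a) (δ θ : ℝ) (hδ : 0 < δ) (hδ2 : δ < 1 / 2) (hθ : 0 < θ)
    (hθδ : θ < 1 / 2 + δ) : ∃ x0 : ℕ, ∀ x : ℕ, x0 ≤ x → ∀ M : Finset ℤ,
    (∀ m ∈ M, -(3 * (x : ℤ) ^ 2) ≤ 4 * m ∧ m ≤ K * (x : ℤ) ^ 2) → (x : ℝ) ^ (2 * δ) ≤ M.card →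
    ∀ g : ℕ → ℝ, (g = g1 ∨ g = g2) →
    (((pI x M).filter (fun i => ((pn a b i : ℕ) : ℝ) / Real.log (pn a b i : ℕ) ^ A <
      D g (pn a b i) (((pn a b i : ℕ) : ℝ) ^ θ))).card : ℝ) ≤ x * M.card / Real.log x ^ B := by
  obtain ⟨x0, h0⟩ := base_pairs a b K A B ha δ θ hδ hδ2 hθ hθδ
  obtain ⟨x1, h1⟩ := rpow_ev (2 * δ) (by linarith) 2
  refine ⟨x0 + x1, fun x hx M hM hMc g hg => ?_⟩
  have k0 := h0 x (by omega)
  have k1 := h1 x (by omega)
  set k := ⌈(x : ℝ) ^ (2 * δ)⌉₊ with hk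
  have hk1 : (x : ℝ) ^ (2 * δ) ≤ k := Nat.le_ceil _
  have hk2 : (k : ℝ) < (x : ℝ) ^ (2 * δ) + 1 := Nat.ceil_lt_add_one (by positivity)
  have key : ∀ n : ℕ, ∀ M : Finset ℤ, M.card = n →
      (∀ m ∈ M, -(3 * (x : ℤ) ^ 2) ≤ 4 * m ∧ m ≤ K * (x : ℤ) ^ 2) → k ≤ M.card →
      (((pI x M).filter (fun i => ((pn a b i : ℕ) : ℝ) / Real.log (pn a b i : ℕ) ^ A <
        D g (pn a b i) (((pn a b i : ℕ) : ℝ) ^ θ))).card : ℝ) ≤ x * M.card / Real.log x ^ B := by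
    intro n
    induction n using Nat.strong_induction_on with
    | _ n ih =>
      intro M hn hM hkM
      rcases lt_or_ge M.card (2 * k) with hlt | hge
      · apply k0 M hM _ _ g hg
        · refine hk1.trans ?_
          exact_mod_cast hkM
        · have e1 : (M.card : ℝ) + 1 ≤ 2 * k := by exact_mod_cast hlt
          linarith
      · obtain ⟨M', hM', hc'⟩ := exists_subset_card_eq (show k ≤ M.card by omega)
        have hk0 : 0 < k := by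
          rcases Nat.eq_zero_or_pos k with h | h
          · rw [h] at hk1
            push_cast at hk1
            linarith
          · exact h
        have hsd : (M \ M').card = M.card - k := by rw [card_sdiff_of_subset hM', hc']
        have i1 := ih M'.card (by omega) M' rfl (fun m hm => hM m (hM' hm)) (by omega)
        have i2 := ih (M \ M').card (by omega) (M \ M') rfl (fun m hm => hM m (mem_sdiff.1 hm).1) (by omega)
        have hcup : (pI x M).filter (fun i => ((pn a b i : ℕ) : ℝ) / Real.log (pn a b i : ℕ) ^ A <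
            D g (pn a b i) (((pn a b i : ℕ) : ℝ) ^ θ)) ⊆
            (pI x M').filter (fun i => ((pn a b i : ℕ) : ℝ) / Real.log (pn a b i : ℕ) ^ A <
              D g (pn a b i) (((pn a b i : ℕ) : ℝ) ^ θ)) ∪
            (pI x (M \ M')).filter (fun i => ((pn a b i : ℕ) : ℝ) / Real.log (pn a b i : ℕ) ^ A <
              D g (pn a b i) (((pn a b i : ℕ) : ℝ) ^ θ)) := by
          intro i hi
          rw [mem_filter] at hi
          rw [mem_union, mem_filter, mem_filter]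
          unfold pI at hi ⊢
          rw [mem_product] at hi
          by_cases h : i.2 ∈ M'
          · left
            exact ⟨mem_product.2 ⟨hi.1.1, h⟩, hi.2⟩
          · right
            exact ⟨mem_product.2 ⟨hi.1.1, mem_sdiff.2 ⟨hi.1.2, h⟩⟩, hi.2⟩
        have hcc := (card_le_card hcup).trans (card_union_le _ _)
        have hcr : (((pI x M).filter (fun i => ((pn a b i : ℕ) : ℝ) / Real.log (pn a b i : ℕ) ^ A <
            D g (pn a b i) (((pn a b i : ℕ) : ℝ) ^ θ))).card : ℝ) ≤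
            (((pI x M').filter (fun i => ((pn a b i : ℕ) : ℝ) / Real.log (pn a b i : ℕ) ^ A <
              D g (pn a b i) (((pn a b i : ℕ) : ℝ) ^ θ))).card : ℝ) +
            (((pI x (M \ M')).filter (fun i => ((pn a b i : ℕ) : ℝ) / Real.log (pn a b i : ℕ) ^ A <
              D g (pn a b i) (((pn a b i : ℕ) : ℝ) ^ θ))).card : ℝ) := by exact_mod_cast hcc
        have hsum : (M.card : ℝ) = M'.card + (M \ M').card := by
          have : M.card = M'.card + (M \ M').card := by omega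
          exact_mod_cast this
        rw [hsum]
        refine hcr.trans ((add_le_add i1 i2).trans (le_of_eq ?_))
        ring
  exact key M.card M rfl hM (by rw [hk]; exact Nat.ceil_le.2 hMc)

open Classical in
/-- **Two-parameter families.** -/
theorem pairs (a b K A B : ℕ) (ha : 1 ≤ a) (δ θ : ℝ) (hδ : 0 < δ) (hδ2 : δ < 1 / 2) (hθ : 0 < θ)
    (hθδ : θ < 1 / 2 + δ) : ∃ x0 : ℕ, ∀ x : ℕ, x0 ≤ x → ∀ M : Finset ℤ,
    (∀ m ∈ M, -(x : ℤ) ^ 2 ≤ 2 * m ∧ m ≤ K * (x : ℤ) ^ 2) → (x : ℝ) ^ (2 * δ) ≤ M.card →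
    (((Ioc x (2 * x) ×ˢ M).filter (fun i : ℕ × ℤ => ∃ N : ℕ, (N : ℤ) = a * (i.1 : ℤ) ^ 2 + b * i.1 + i.2 ∧
      ∃ g : ℕ → ℝ, (g = g1 ∨ g = g2) ∧ (N : ℝ) / Real.log N ^ A < D g N ((N : ℝ) ^ θ))).card : ℝ) ≤
      x * M.card / Real.log x ^ B := by
  obtain ⟨x0, h0⟩ := pairs_aux a b K A (B + 1) ha δ θ hδ hδ2 hθ hθδ
  obtain ⟨x1, h1⟩ := log_ev 2
  refine ⟨x0 + x1, fun x hx M hM hMc => ?_⟩
  have k0 := h0 x (by omega) M (fun m hm => by
    obtain ⟨e1, e2⟩ := hM m hm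
    exact ⟨by nlinarith [sq_nonneg (x : ℤ)], e2⟩) hMc
  have k1 := h1 x (by omega)
  have e1 := k0 g1 (Or.inl rfl)
  have e2 := k0 g2 (Or.inr rfl)
  have hsub : (Ioc x (2 * x) ×ˢ M).filter (fun i : ℕ × ℤ => ∃ N : ℕ, (N : ℤ) = a * (i.1 : ℤ) ^ 2 + b * i.1 + i.2 ∧
      ∃ g : ℕ → ℝ, (g = g1 ∨ g = g2) ∧ (N : ℝ) / Real.log N ^ A < D g N ((N : ℝ) ^ θ)) ⊆
      (pI x M).filter (fun i => ((pn a b i : ℕ) : ℝ) / Real.log (pn a b i : ℕ) ^ A <
        D g1 (pn a b i) (((pn a b i : ℕ) : ℝ) ^ θ)) ∪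
      (pI x M).filter (fun i => ((pn a b i : ℕ) : ℝ) / Real.log (pn a b i : ℕ) ^ A <
        D g2 (pn a b i) (((pn a b i : ℕ) : ℝ) ^ θ)) := by
    intro i hi
    rw [mem_filter] at hi
    obtain ⟨hi1, N, hN, g, hg, hlt⟩ := hi
    have hpn : pn a b i = N := by
      unfold pn pv qv
      omega
    rw [mem_union, mem_filter, mem_filter, hpn]
    rcases hg with rfl | rfl
    · exact Or.inl ⟨hi1, hlt⟩
    · exact Or.inr ⟨hi1, hlt⟩
  have hcc := (card_le_card hsub).trans (card_union_le _ _)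
  have hcr : (((Ioc x (2 * x) ×ˢ M).filter (fun i : ℕ × ℤ => ∃ N : ℕ, (N : ℤ) = a * (i.1 : ℤ) ^ 2 + b * i.1 + i.2 ∧
      ∃ g : ℕ → ℝ, (g = g1 ∨ g = g2) ∧ (N : ℝ) / Real.log N ^ A < D g N ((N : ℝ) ^ θ))).card : ℝ) ≤
      (((pI x M).filter (fun i => ((pn a b i : ℕ) : ℝ) / Real.log (pn a b i : ℕ) ^ A <
        D g1 (pn a b i) (((pn a b i : ℕ) : ℝ) ^ θ))).card : ℝ) +
      (((pI x M).filter (fun i => ((pn a b i : ℕ) : ℝ) / Real.log (pn a b i : ℕ) ^ A <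
        D g2 (pn a b i) (((pn a b i : ℕ) : ℝ) ^ θ))).card : ℝ) := by exact_mod_cast hcc
  refine hcr.trans ((add_le_add e1 e2).trans ?_)
  have hl0 : 0 < Real.log x := by linarith
  rw [pow_succ, ← div_div]
  set z := (x : ℝ) * M.card / Real.log x ^ B with hz
  have hz0 : 0 ≤ z := by positivity
  rw [← add_div, div_le_iff₀ hl0]
  nlinarith

open Classical in
/-- **The numbers `a n^2 + b n + m^k`.** -/
theorem powers (a b k A B : ℕ) (ha : 1 ≤ a) (hk : 1 ≤ k) (θ : ℝ) (hθ : 0 < θ) (hθ1 : θ < 1)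
    (hθk : θ < 1 / 2 + 1 / k) : ∃ x0 : ℕ, ∀ x : ℕ, x0 ≤ x →
    (((Ioc x (2 * x) ×ˢ Icc 1 ⌊(x : ℝ) ^ (2 / (k : ℝ))⌋₊).filter (fun p : ℕ × ℕ =>
      ∃ g : ℕ → ℝ, (g = g1 ∨ g = g2) ∧
        ((a * p.1 ^ 2 + b * p.1 + p.2 ^ k : ℕ) : ℝ) / Real.log (a * p.1 ^ 2 + b * p.1 + p.2 ^ k : ℕ) ^ A <
          D g (a * p.1 ^ 2 + b * p.1 + p.2 ^ k) (((a * p.1 ^ 2 + b * p.1 + p.2 ^ k : ℕ) : ℝ) ^ θ))).card : ℝ) ≤
      x * ⌊(x : ℝ) ^ (2 / (k : ℝ))⌋₊ / Real.log x ^ B := by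
  have hk0 : (0 : ℝ) < k := by exact_mod_cast hk
  -- the choice of δ
  obtain ⟨δ, hδ0, hδ1, hδ2, hδ3⟩ : ∃ δ : ℝ, 0 < δ ∧ δ < 1 / 2 ∧ θ < 1 / 2 + δ ∧ δ < 1 / k := by
    have hk' : 0 < 1 / (k : ℝ) := by positivity
    set lo := max (θ - 1 / 2) 0 with hlo
    set hi := min (1 / 2 : ℝ) (1 / (k : ℝ)) with hhi
    have h1 : lo < hi := by
      rw [hlo, hhi]
      apply max_lt
      · apply lt_min <;> linarith
      · apply lt_min <;> linarith
    have l1 : θ - 1 / 2 ≤ lo := le_max_left _ _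
    have l2 : 0 ≤ lo := le_max_right _ _
    have u1 : hi ≤ 1 / 2 := min_le_left _ _
    have u2 : hi ≤ 1 / (k : ℝ) := min_le_right _ _
    exact ⟨(lo + hi) / 2, by linarith, by linarith, by linarith, by linarith⟩
  obtain ⟨x0, h0⟩ := pairs a b 1 A B ha δ θ hδ0 hδ1 hθ hδ2
  have hr : 0 < 2 / (k : ℝ) - 2 * δ := by
    have e1 : 2 / (k : ℝ) = 2 * (1 / k) := by ring
    rw [e1]
    linarith
  obtain ⟨x1, h1⟩ := rpow_ev (2 / (k : ℝ) - 2 * δ) hr 2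
  refine ⟨x0 + x1 + 1, fun x hx => ?_⟩
  have hx1 : (1 : ℝ) ≤ x := by exact_mod_cast (by omega : 1 ≤ x)
  have hxp : (0 : ℝ) < x := by linarith
  set y := ⌊(x : ℝ) ^ (2 / (k : ℝ))⌋₊ with hy
  have hyle : (y : ℝ) ≤ (x : ℝ) ^ (2 / (k : ℝ)) := Nat.floor_le (by positivity)
  have hylt : (x : ℝ) ^ (2 / (k : ℝ)) < y + 1 := Nat.lt_floor_add_one _
  have hyk : y ^ k ≤ x ^ 2 := by
    have e1 : (y : ℝ) ^ k ≤ (x : ℝ) ^ 2 := by
      calc (y : ℝ) ^ k ≤ ((x : ℝ) ^ (2 / (k : ℝ))) ^ k := pow_le_pow_left₀ (by positivity) hyle _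
        _ = (x : ℝ) ^ 2 := by
          rw [← Real.rpow_natCast, ← Real.rpow_mul hxp.le, div_mul_cancel₀ _ hk0.ne']
          norm_num
    exact_mod_cast e1
  set pw : ℕ → ℤ := fun m => ((m ^ k : ℕ) : ℤ) with hpw
  have hinj : Function.Injective pw := by
    intro m m' h
    rw [hpw] at h
    simp only at h
    have h2 : m ^ k = m' ^ k := by exact_mod_cast h
    exact Nat.pow_left_injective (by omega) h2
  set M := (Icc 1 y).image pw with hM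
  have hMcard : M.card = y := by
    rw [hM, card_image_of_injective _ hinj, Nat.card_Icc]
    omega
  have hMb : ∀ m ∈ M, -(x : ℤ) ^ 2 ≤ 2 * m ∧ m ≤ ((1 : ℕ) : ℤ) * (x : ℤ) ^ 2 := by
    intro m hm
    rw [hM, mem_image] at hm
    obtain ⟨l, hl, rfl⟩ := hm
    rw [mem_Icc] at hl
    have e1 : l ^ k ≤ x ^ 2 := (Nat.pow_le_pow_left hl.2 k).trans hyk
    have e2 : ((l ^ k : ℕ) : ℤ) ≤ (x : ℤ) ^ 2 := by exact_mod_cast e1
    rw [hpw]
    simp only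
    constructor
    · have : (0 : ℤ) ≤ ((l ^ k : ℕ) : ℤ) := by positivity
      nlinarith [sq_nonneg (x : ℤ)]
    · push_cast at e2 ⊢
      linarith
  have hMc : (x : ℝ) ^ (2 * δ) ≤ M.card := by
    rw [hMcard]
    have k1 := h1 x (by omega)
    have e1 : (x : ℝ) ^ (2 / (k : ℝ)) = (x : ℝ) ^ (2 / (k : ℝ) - 2 * δ) * (x : ℝ) ^ (2 * δ) := by
      rw [← Real.rpow_add hxp]
      congr 1
      ring
    have e2 : 1 ≤ (x : ℝ) ^ (2 * δ) := Real.one_le_rpow hx1 (by linarith)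
    have e3 : 2 * (x : ℝ) ^ (2 * δ) ≤ (x : ℝ) ^ (2 / (k : ℝ)) := by
      rw [e1]
      exact mul_le_mul_of_nonneg_right k1 (by positivity)
    linarith
  have hmain := h0 x (by omega) M hMb hMc
  rw [hMcard] at hmain
  refine le_trans ?_ hmain
  have hle : ((Ioc x (2 * x) ×ˢ Icc 1 y).filter (fun p : ℕ × ℕ => ∃ g : ℕ → ℝ, (g = g1 ∨ g = g2) ∧
        ((a * p.1 ^ 2 + b * p.1 + p.2 ^ k : ℕ) : ℝ) / Real.log (a * p.1 ^ 2 + b * p.1 + p.2 ^ k : ℕ) ^ A <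
          D g (a * p.1 ^ 2 + b * p.1 + p.2 ^ k) (((a * p.1 ^ 2 + b * p.1 + p.2 ^ k : ℕ) : ℝ) ^ θ))).card ≤
      ((Ioc x (2 * x) ×ˢ M).filter (fun i : ℕ × ℤ => ∃ N : ℕ, (N : ℤ) = a * (i.1 : ℤ) ^ 2 + b * i.1 + i.2 ∧
        ∃ g : ℕ → ℝ, (g = g1 ∨ g = g2) ∧ (N : ℝ) / Real.log N ^ A < D g N ((N : ℝ) ^ θ))).card := by
    apply card_le_card_of_injOn (fun p => (p.1, pw p.2))
    · rintro ⟨n, m⟩ hp
      simp only [coe_filter, mem_product, Set.mem_ofPred_eq] at hp ⊢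
      obtain ⟨⟨e1, e2⟩, g, hg, hlt⟩ := hp
      refine ⟨⟨e1, by rw [hM]; exact mem_image_of_mem _ e2⟩, a * n ^ 2 + b * n + m ^ k, ?_, g, hg, hlt⟩
      rw [hpw]
      push_cast
      ring
    · rintro ⟨n, m⟩ _ ⟨n', m'⟩ _ heq
      simp only [Prod.mk.injEq] at heq
      rw [heq.1, hinj heq.2]
  exact_mod_cast hle

end Pool.Agent.V7H49.DQ
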