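import Mathlib
import Pool.Agent.V7H49.DQ6

/-! One exceptional set for a quadratic polynomial. -/

set_option autoImplicit false

namespace Pool.Agent.V7H49.DQ
open Finset Filter Topology
open Pool.Agent.R311.DEH

lemma two_le_log {N : ℕ} (h : 8 ≤ N) : 2 ≤ Real.log N := by
  have h1 : Real.exp 2 ≤ 8 := by
    have h2 : Real.exp 2 = Real.exp 1 ^ 2 := by rw [← Real.exp_nat_mul]; norm_num
    have h3 := Real.exp_one_lt_d9
    rw [h2]
    nlinarith [Real.exp_pos 1]
  rw [Real.le_log_iff_exp_le (by positivity)]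
  have h4 : (8 : ℝ) ≤ N := by exact_mod_cast h
  linarith

open Classical in
/-- the diagonal choice of one exceptional set -/
lemma diag (bad : ℕ → ℕ → Prop) (mono : ∀ j k n : ℕ, j ≤ k → 8 ≤ n → bad j n → bad k n)
    (few : ∀ k : ℕ, ∃ X0 : ℕ, ∀ X : ℕ, X0 ≤ X → (((Icc 1 X).filter (bad k)).card : ℝ) ≤ X / Real.log X ^ k) :
    ∃ E : Set ℕ, (∀ B : ℝ, ∃ X₀ : ℕ, ∀ X : ℕ, X₀ ≤ X →
      (((Icc 1 X).filter (fun n => n ∈ E)).card : ℝ) ≤ X / Real.log X ^ B) ∧
      ∀ k : ℕ, ∃ n₀ : ℕ, ∀ n : ℕ, n₀ ≤ n → n ∉ E → ¬ bad k n := by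
  choose X0 hX0 using few
  set Y : ℕ → ℕ := fun k => ∑ j ∈ range (k + 1), X0 j + k + 8 with hY
  have hY8 : ∀ k, 8 ≤ Y k := fun k => by simp only [hY]; omega
  have hYk : ∀ k, k ≤ Y k := fun k => by simp only [hY]; omega
  have hYX : ∀ k, X0 k ≤ Y k := fun k => by
    simp only [hY]
    have := single_le_sum (f := X0) (s := range (k + 1)) (fun _ _ => Nat.zero_le _)
      (mem_range.2 (Nat.lt_succ_self k))
    omega
  refine ⟨{n : ℕ | ∃ k, Y k ≤ n ∧ bad k n}, ?_, ?_⟩
  · intro B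
    obtain ⟨b, hb⟩ := exists_nat_ge B
    refine ⟨Y b, fun X hX => ?_⟩
    set k := Nat.findGreatest (fun j => Y j ≤ X) X with hk
    have hbk : b ≤ k := Nat.le_findGreatest ((hYk b).trans hX) hX
    have hkX : Y k ≤ X := Nat.findGreatest_spec (P := fun j => Y j ≤ X) ((hYk b).trans hX) hX
    have hmax : ∀ j, Y j ≤ X → j ≤ k := fun j hj => Nat.le_findGreatest ((hYk j).trans hj) hj
    have hL := two_le_log ((hY8 b).trans hX)
    have hsub : (Icc 1 X).filter (fun n => n ∈ {n : ℕ | ∃ k, Y k ≤ n ∧ bad k n}) ⊆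
        (Icc 1 X).filter (bad k) := by
      intro n hn
      rw [mem_filter] at hn ⊢
      obtain ⟨hn1, j, hjn, hj⟩ := hn
      exact ⟨hn1, mono j k n (hmax j (hjn.trans (mem_Icc.1 hn1).2)) ((hY8 j).trans hjn) hj⟩
    have h1 : (((Icc 1 X).filter (fun n => n ∈ {n : ℕ | ∃ k, Y k ≤ n ∧ bad k n})).card : ℝ) ≤
        X / Real.log X ^ k := by
      refine le_trans ?_ (hX0 k X ((hYX k).trans hkX))
      exact_mod_cast card_le_card hsub
    refine h1.trans ?_
    rw [← Real.rpow_natCast]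
    apply div_le_div_of_nonneg_left (by positivity) (by positivity)
    apply Real.rpow_le_rpow_of_exponent_le (by linarith)
    have : (b : ℝ) ≤ k := by exact_mod_cast hbk
    linarith
  · intro k
    exact ⟨Y k, fun n hn hnE hb => hnE ⟨k, hn, hb⟩⟩

lemma D_small (g : ℕ → ℝ) (N : ℕ) (y : ℝ) (hy : y < 2) : D g N y = 0 := by
  unfold D
  apply sum_eq_zero
  intro q hq
  rw [mem_filter, mem_Icc] at hq
  have h1 : ⌊y⌋₊ < 2 := by
    rcases lt_or_ge y 0 with h | h
    · rw [Nat.floor_of_nonpos h.le]; norm_num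
    · rw [Nat.floor_lt h]; exact_mod_cast hy
  have h2 : q = 1 := by omega
  rw [h2]
  simp

/-- the exponents `1 / 2 - 1 / (k + 3)` -/
noncomputable def th (k : ℕ) : ℝ := 1 / 2 - 1 / ((k : ℝ) + 3)

lemma th_pos (k : ℕ) : 0 < th k := by
  unfold th
  have h1 : 1 / ((k : ℝ) + 3) ≤ 1 / 3 := one_div_le_one_div_of_le (by norm_num) (by
    have : (0 : ℝ) ≤ k := by positivity
    linarith)
  linarith

lemma th_mono {j k : ℕ} (h : j ≤ k) : th j ≤ th k := by
  unfold th
  have h1 : (j : ℝ) ≤ k := by exact_mod_cast h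
  have h2 : 1 / ((k : ℝ) + 3) ≤ 1 / ((j : ℝ) + 3) := one_div_le_one_div_of_le (by positivity) (by linarith)
  linarith

lemma th_lt (k : ℕ) : th k < 1 / 2 := by
  unfold th
  have : 0 < 1 / ((k : ℝ) + 3) := by positivity
  linarith

/-- the bad arguments of stage `k` -/
def bd (a b : ℕ) (c : ℤ) (k n : ℕ) : Prop :=
  Bd a b c (Real.log n ^ k) (fun N => ∃ g : ℕ → ℝ, (g = g1 ∨ g = g2) ∧
    (N : ℝ) / Real.log N ^ k < D g N ((N : ℝ) ^ (th k))) n

lemma bad_large {g : ℕ → ℝ} {N k : ℕ} (h : (N : ℝ) / Real.log N ^ k < D g N ((N : ℝ) ^ (th k))) : 4 ≤ N := by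
  by_contra hcon
  push Not at hcon
  have h1 : (N : ℝ) ^ (th k) < 2 := by
    have h2 : (N : ℝ) < 4 := by exact_mod_cast hcon
    rcases Nat.eq_zero_or_pos N with h0 | h0
    · rw [h0, Nat.cast_zero, Real.zero_rpow (th_pos k).ne']
      norm_num
    · have h3 : (1 : ℝ) ≤ N := by exact_mod_cast h0
      have h4 : (4 : ℝ) ^ (1 / 2 : ℝ) = 2 := by
        rw [← Real.sqrt_eq_rpow]
        have : (4 : ℝ) = 2 ^ 2 := by norm_num
        rw [this, Real.sqrt_sq (by norm_num)]
      calc (N : ℝ) ^ (th k) ≤ (N : ℝ) ^ (1 / 2 : ℝ) :=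
            Real.rpow_le_rpow_of_exponent_le h3 (th_lt k).le
        _ < 4 ^ (1 / 2 : ℝ) := Real.rpow_lt_rpow (by linarith) h2 (by norm_num)
        _ = 2 := h4
  rw [D_small g N _ h1] at h
  have h5 : 0 ≤ (N : ℝ) / Real.log N ^ k := div_nonneg (by positivity) (pow_nonneg (Real.log_natCast_nonneg N) _)
  linarith

lemma bd_mono (a b : ℕ) (c : ℤ) (j k n : ℕ) (hjk : j ≤ k) (hn : 8 ≤ n) (h : bd a b c j n) : bd a b c k n := by
  obtain ⟨N, hN, g, hg, hlt⟩ := h
  have hn2 := two_le_log hn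
  refine ⟨N, hN.trans (pow_le_pow_right₀ (by linarith) hjk), g, hg, ?_⟩
  have hN4 := bad_large hlt
  have hNr : (4 : ℝ) ≤ N := by exact_mod_cast hN4
  have hL : 1 ≤ Real.log N := by
    rw [Real.le_log_iff_exp_le (by linarith)]
    have := Real.exp_one_lt_d9
    linarith
  have h1 : (N : ℝ) / Real.log N ^ k ≤ N / Real.log N ^ j :=
    div_le_div_of_nonneg_left (by positivity) (by positivity) (pow_le_pow_right₀ hL hjk)
  have h2 : (N : ℝ) ^ (th j) ≤ (N : ℝ) ^ (th k) := Real.rpow_le_rpow_of_exponent_le (by linarith) (th_mono hjk)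
  exact lt_of_le_of_lt h1 (hlt.trans_le (D_mono g N h2))

open Classical in
lemma bd_few (a b : ℕ) (c : ℤ) (ha : 1 ≤ a) (k : ℕ) : ∃ X0 : ℕ, ∀ X : ℕ, X0 ≤ X →
    (((Icc 1 X).filter (bd a b c k)).card : ℝ) ≤ X / Real.log X ^ k := by
  apply dyadic
  obtain ⟨C, x1, h1⟩ := windows a b 1 k (k + 2) (k + 1) ha
  obtain ⟨x2, h2⟩ := log_ev (2 ^ k + 2)
  obtain ⟨x3, h3⟩ := log_pow_ev (k + 1) 1 one_pos 1
  obtain ⟨x4, h4⟩ := log_pow_ev C (1 / ((k : ℝ) + 3)) (by positivity) 1
  refine ⟨x1 + x2 + x3 + x4 + 2 * c.natAbs + 8, fun x hx => ?_⟩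
  have k2 := h2 x (by omega)
  have k3 := h3 x (by omega)
  rw [one_mul, Real.rpow_one] at k3
  have hx8 : 8 ≤ x := by omega
  have hxr : (8 : ℝ) ≤ x := by exact_mod_cast hx8
  have hxc : 2 * c.natAbs ≤ x := by omega
  set lx := Real.log x with hlx
  have hpow0 : (0 : ℝ) ≤ 2 ^ k := by positivity
  have hlx2 : 2 ≤ lx := by linarith
  have hc1 : -((x : ℤ) ^ 2) ≤ 2 * c := by
    have e1 : (x : ℤ) ≤ (x : ℤ) ^ 2 := by nlinarith [show (8 : ℤ) ≤ x by exact_mod_cast hx8]
    omega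
  have hc2 : c ≤ ((1 : ℕ) : ℤ) * (x : ℤ) ^ 2 := by
    have e1 : (x : ℤ) ≤ (x : ℤ) ^ 2 := by nlinarith [show (8 : ℤ) ≤ x by exact_mod_cast hx8]
    push_cast
    omega
  refine le_trans ?_ (h1 x (by omega) c hc1 hc2)
  have hsub : (Ioc x (2 * x)).filter (bd a b c k) ⊆ (Ioc x (2 * x)).filter (fun n => Bd a b c (lx ^ (k + 1))
      (fun N => ∃ g : ℕ → ℝ, (g = g1 ∨ g = g2) ∧
        (N : ℝ) / Real.log N ^ k < D g N (Real.sqrt N / Real.log N ^ C)) n) := by
    intro n hn
    rw [mem_filter] at hn ⊢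
    obtain ⟨hn1, N, hN1, g, hg, hN2⟩ := hn
    refine ⟨hn1, N, ?_, g, hg, hN2.trans_le ?_⟩
    · refine hN1.trans ?_
      rw [mem_Ioc] at hn1
      have hn0 : (0 : ℝ) < n := by
        have : 0 < n := by omega
        exact_mod_cast this
      have e1 : Real.log n ≤ 2 * lx := by
        have e2 : (n : ℝ) ≤ 2 * x := by exact_mod_cast hn1.2
        have e3 := Real.log_le_log hn0 e2
        rw [Real.log_mul (by norm_num) (by positivity)] at e3
        have e4 : Real.log 2 ≤ Real.log x := Real.log_le_log (by norm_num) (by linarith)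
        linarith
      calc Real.log n ^ k ≤ (2 * lx) ^ k := pow_le_pow_left₀ (Real.log_natCast_nonneg n) e1 _
        _ = 2 ^ k * lx ^ k := mul_pow _ _ _
        _ ≤ lx * lx ^ k := by
            apply mul_le_mul_of_nonneg_right _ (by positivity)
            linarith
        _ = lx ^ (k + 1) := by ring
    · -- the level
      apply D_mono
      have hNx : x ≤ N := by
        rw [mem_Ioc] at hn1
        have e0 : (x : ℝ) + 1 ≤ n := by exact_mod_cast hn1.1
        have hn0 : (0 : ℝ) < n := by linarith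
        have e1 : Real.log n ≤ 2 * lx := by
          have e2 : (n : ℝ) ≤ 2 * x := by exact_mod_cast hn1.2
          have e3 := Real.log_le_log hn0 e2
          rw [Real.log_mul (by norm_num) (by positivity)] at e3
          have e4 : Real.log 2 ≤ Real.log x := Real.log_le_log (by norm_num) (by linarith)
          linarith
        have e5 : Real.log n ^ k ≤ x := by
          refine le_trans ?_ k3
          calc Real.log n ^ k ≤ (2 * lx) ^ k := pow_le_pow_left₀ (Real.log_natCast_nonneg n) e1 _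
            _ = 2 ^ k * lx ^ k := mul_pow _ _ _
            _ ≤ lx * lx ^ k := by
                apply mul_le_mul_of_nonneg_right _ (by positivity)
                linarith
            _ = lx ^ (k + 1) := by ring
        have e6 := (abs_le.1 hN1).1
        have e7 : -(x : ℝ) ≤ 2 * c := by
          have : -(x : ℤ) ≤ 2 * c := by omega
          exact_mod_cast this
        have e8 : (1 : ℝ) ≤ a := by exact_mod_cast ha
        have e9 : (0 : ℝ) ≤ b * n := by positivity
        have e10 : (n : ℝ) ^ 2 ≤ a * (n : ℝ) ^ 2 := by nlinarith [sq_nonneg (n : ℝ)]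
        have e11 : (x : ℝ) ≤ N := by nlinarith
        exact_mod_cast e11
      have hN0 : (0 : ℝ) < N := by
        have : 0 < N := by omega
        exact_mod_cast this
      have hlN : 2 ≤ Real.log N := two_le_log (by omega)
      have e1 := h4 N (by omega)
      rw [one_mul] at e1
      rw [le_div_iff₀ (by positivity)]
      calc (N : ℝ) ^ th k * Real.log N ^ C ≤ (N : ℝ) ^ th k * (N : ℝ) ^ (1 / ((k : ℝ) + 3)) :=
            mul_le_mul_of_nonneg_left e1 (by positivity)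
        _ = Real.sqrt N := by
            rw [← Real.rpow_add hN0, Real.sqrt_eq_rpow]
            congr 1
            unfold th
            ring
  exact_mod_cast card_le_card hsub

open Classical in
/-- **One exceptional set.** -/
theorem single (a b : ℕ) (c : ℤ) (ha : 1 ≤ a) : ∃ E : Set ℕ,
    (∀ B : ℝ, ∃ X₀ : ℕ, ∀ X : ℕ, X₀ ≤ X →
      (((Icc 1 X).filter (fun n => n ∈ E)).card : ℝ) ≤ X / Real.log X ^ B) ∧
    ∀ θ : ℝ, 0 < θ → θ < 1 / 2 → ∀ A : ℝ, 0 < A → ∀ W : ℕ, ∃ n₀ : ℕ, ∀ n : ℕ, n₀ ≤ n → n ∉ E → ∀ N : ℕ,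
      |(N : ℝ) - (a * (n : ℝ) ^ 2 + b * n + c)| ≤ Real.log n ^ W → ∀ g : ℕ → ℝ, (g = g1 ∨ g = g2) →
        D g N ((N : ℝ) ^ θ) ≤ N * Real.log N ^ (-A) := by
  obtain ⟨E, h1, h2⟩ := diag (bd a b c) (bd_mono a b c) (bd_few a b c ha)
  refine ⟨E, h1, fun θ hθ hθ1 A hA W => ?_⟩
  obtain ⟨k, hk⟩ := exists_nat_ge (A + W + 1 / (1 / 2 - θ))
  obtain ⟨n₀, hn₀⟩ := h2 k
  have hθ2 : 0 < 1 / 2 - θ := by linarith
  have hpos : 0 < 1 / (1 / 2 - θ) := by positivity
  have hAk : A ≤ k := by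
    have : (0 : ℝ) ≤ W := by positivity
    linarith
  have hWk : W ≤ k := by
    have : (W : ℝ) ≤ k := by linarith
    exact_mod_cast this
  have hθk : θ ≤ th k := by
    unfold th
    have e1 : 1 / ((k : ℝ) + 3) ≤ 1 / 2 - θ := by
      rw [div_le_iff₀ (by positivity)]
      have e2 : 1 / (1 / 2 - θ) ≤ k + 3 := by
        have : (0 : ℝ) ≤ W := by positivity
        linarith
      rw [div_le_iff₀ hθ2] at e2
      linarith
    linarith
  refine ⟨n₀ + 8, fun n hn hnE N hN g hg => ?_⟩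
  have hn8 : 8 ≤ n := by omega
  have hln := two_le_log hn8
  rcases lt_or_ge N 4 with hN4 | hN4
  · -- the level is below 2
    have e0 : (N : ℝ) ^ θ < 2 := by
      have h2' : (N : ℝ) < 4 := by exact_mod_cast hN4
      rcases Nat.eq_zero_or_pos N with h0 | h0
      · rw [h0, Nat.cast_zero, Real.zero_rpow hθ.ne']
        norm_num
      · have h3 : (1 : ℝ) ≤ N := by exact_mod_cast h0
        have h4 : (4 : ℝ) ^ (1 / 2 : ℝ) = 2 := by
          rw [← Real.sqrt_eq_rpow]
          have : (4 : ℝ) = 2 ^ 2 := by norm_num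
          rw [this, Real.sqrt_sq (by norm_num)]
        calc (N : ℝ) ^ θ ≤ (N : ℝ) ^ (1 / 2 : ℝ) := Real.rpow_le_rpow_of_exponent_le h3 hθ1.le
          _ < 4 ^ (1 / 2 : ℝ) := Real.rpow_lt_rpow (by linarith) h2' (by norm_num)
          _ = 2 := h4
    rw [D_small g N _ e0]
    exact mul_nonneg (by positivity) (Real.rpow_nonneg (Real.log_natCast_nonneg N) _)
  · have hNr : (4 : ℝ) ≤ N := by exact_mod_cast hN4
    have hL : 1 ≤ Real.log N := by
      rw [Real.le_log_iff_exp_le (by linarith)]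
      have := Real.exp_one_lt_d9
      linarith
    have e1 := hn₀ n (by omega) hnE
    have e2 : D g N ((N : ℝ) ^ th k) ≤ N / Real.log N ^ k := by
      by_contra hcon
      exact e1 ⟨N, hN.trans (pow_le_pow_right₀ (by linarith) hWk), g, hg, not_le.1 hcon⟩
    have e3 : D g N ((N : ℝ) ^ θ) ≤ D g N ((N : ℝ) ^ th k) :=
      D_mono g N (Real.rpow_le_rpow_of_exponent_le (by linarith) hθk)
    refine e3.trans (e2.trans ?_)
    rw [div_eq_mul_inv, ← Real.rpow_natCast, ← Real.rpow_neg (by linarith)]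
    apply mul_le_mul_of_nonneg_left _ (by positivity)
    exact Real.rpow_le_rpow_of_exponent_le hL (by linarith)

end Pool.Agent.V7H49.DQ
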